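import Mathlib

open Matrix

namespace Pool.Agent.Results.MP_c41d74_gt.UnitaryTwo

noncomputable section

/-! Singular cohomology with rational coefficients, from singular cochains. -/

/-- Singular `n`-simplices of `X`. -/
def Simplex (X : Type) [TopologicalSpace X] (n : ℕ) : Type := C(stdSimplex ℝ (Fin (n + 1)), X)

/-- The `i`-th face of a singular `(n+1)`-simplex. -/
def face {X : Type} [TopologicalSpace X] {n : ℕ} (i : Fin (n + 2)) (σ : Simplex X (n + 1)) :
    Simplex X n :=
  ContinuousMap.comp σ ⟨stdSimplex.map i.succAbove, stdSimplex.continuous_map _⟩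

/-- The singular coboundary of a rational cochain. -/
def cobd {X : Type} [TopologicalSpace X] {n : ℕ} (c : Simplex X n → ℚ) (σ : Simplex X (n + 1)) :
    ℚ :=
  ∑ i : Fin (n + 2), (-1) ^ (i : ℕ) * c (face i σ)

/-- Singular cocycles. -/
def IsCocycle {X : Type} [TopologicalSpace X] {n : ℕ} (c : Simplex X n → ℚ) : Prop :=
  ∀ σ, cobd c σ = 0

/-- Two cochains are cohomologous if they differ by a coboundary (in degree `0`: if they are
equal). -/
def Cohomologous {X : Type} [TopologicalSpace X] : {n : ℕ} → (c c' : Simplex X n → ℚ) → Prop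
  | 0, c, c' => c = c'
  | _ + 1, c, c' => ∃ b, ∀ σ, c σ - c' σ = cobd b σ

/-- The singular cohomology `H^n(X; ℚ)`: cocycles modulo coboundaries. -/
def Coh (X : Type) [TopologicalSpace X] (n : ℕ) : Type :=
  Quot fun c c' : {c : Simplex X n → ℚ // IsCocycle c} => Cohomologous c.1 c'.1

lemma zero_cocycle (X : Type) [TopologicalSpace X] (n : ℕ) :
    IsCocycle (fun _ : Simplex X n => (0 : ℚ)) := by
  intro σ
  simp [cobd]

/-- The zero class. -/
def zeroCls (X : Type) [TopologicalSpace X] (n : ℕ) : Coh X n := Quot.mk _ ⟨_, zero_cocycle X n⟩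

lemma pull_cocycle {X Y : Type} [TopologicalSpace X] [TopologicalSpace Y] (f : C(X, Y)) {n : ℕ}
    {c : Simplex Y n → ℚ} (hc : IsCocycle c) :
    IsCocycle (X := X) fun σ => c (ContinuousMap.comp f σ) :=
  fun σ => hc (ContinuousMap.comp f σ)

lemma pull_cohomologous {X Y : Type} [TopologicalSpace X] [TopologicalSpace Y] (f : C(X, Y)) :
    ∀ {n : ℕ} {c c' : Simplex Y n → ℚ}, Cohomologous c c' →
      Cohomologous (X := X) (fun σ => c (ContinuousMap.comp f σ))
        (fun σ => c' (ContinuousMap.comp f σ))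
  | 0, _, _, h => by
    have h' : _ = _ := h
    subst h'
    exact (rfl : _ = _)
  | _ + 1, _, _, ⟨b, hb⟩ => ⟨fun σ => b (ContinuousMap.comp f σ), fun σ => hb _⟩

/-- The pullback map in singular cohomology. -/
def cohMap {X Y : Type} [TopologicalSpace X] [TopologicalSpace Y] (f : C(X, Y)) (n : ℕ) :
    Coh Y n → Coh X n :=
  Quot.map (fun c => ⟨fun σ => c.1 (ContinuousMap.comp f σ), pull_cocycle f c.2⟩)
    fun _ _ h => pull_cohomologous f h

/-! The Borel construction for a compact group of unitary matrices acting on `ℂ^ι`. -/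

variable {ι : Type} [Fintype ι] [DecidableEq ι]

/-- The space of injective linear maps `T : ℂ^ι → ℂ^ℕ`, as matrices with rows indexed by `ℕ`, with
the topology of entrywise convergence. It is contractible, the unitary group acts freely on it by
`g • T = T g⁻¹`, and it is a model of the universal bundle. -/
def EU (ι : Type) [Fintype ι] : Type :=
  {T : ℕ → ι → ℂ // ∀ v : ι → ℂ, (∀ n, T n ⬝ᵥ v = 0) → v = 0}

instance : TopologicalSpace (EU ι) := instTopologicalSpaceSubtype

lemma EU_smul_inj (g : Matrix.unitaryGroup ι ℂ) (T : EU ι) (v : ι → ℂ)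
    (h : ∀ n, (T.1 n ᵥ* (g⁻¹).1) ⬝ᵥ v = 0) : v = 0 := by
  have h1 : (g⁻¹).1 *ᵥ v = 0 := T.2 _ fun n => by rw [Matrix.dotProduct_mulVec]; exact h n
  have h2 : g.1 *ᵥ ((g⁻¹).1 *ᵥ v) = v := by
    rw [Matrix.mulVec_mulVec, ← Matrix.UnitaryGroup.mul_val, mul_inv_cancel]
    exact Matrix.one_mulVec v
  rw [← h2, h1, Matrix.mulVec_zero]

/-- `g • T = T g⁻¹`. -/
def actE (g : Matrix.unitaryGroup ι ℂ) (T : EU ι) : EU ι :=
  ⟨fun n => T.1 n ᵥ* (g⁻¹).1, EU_smul_inj g T⟩

/-- The homotopy quotient (Borel construction) `EU ×_G S` of a `G`-invariant subspace `S` of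
`ℂ^ι`: the quotient of `EU × S` by the diagonal action of `G`. -/
def Borel (G : Subgroup (Matrix.unitaryGroup ι ℂ)) (S : Set (ι → ℂ)) : Type :=
  Quot fun p q : EU ι × S => ∃ g ∈ G, q.1 = actE g p.1 ∧ (q.2 : ι → ℂ) = g.1 *ᵥ p.2

instance (G : Subgroup (Matrix.unitaryGroup ι ℂ)) (S : Set (ι → ℂ)) :
    TopologicalSpace (Borel G S) := instTopologicalSpaceQuot

lemma incl_continuous (S : Set (ι → ℂ)) :
    Continuous fun p : EU ι × S => ((p.1, ⟨p.2.1, trivial⟩) : EU ι × (Set.univ : Set (ι → ℂ))) :=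
  continuous_fst.prodMk ((continuous_subtype_val.comp continuous_snd).subtype_mk _)

/-- The map of Borel constructions induced by the inclusion `S ⊆ ℂ^ι`. -/
def borelIncl (G : Subgroup (Matrix.unitaryGroup ι ℂ)) (S : Set (ι → ℂ)) :
    C(Borel G S, Borel G Set.univ) where
  toFun := Quot.map (fun p => (p.1, ⟨p.2.1, trivial⟩)) fun _ _ h => h
  continuous_toFun := continuous_quot_lift _ (continuous_quot_mk.comp (incl_continuous S))

/-- The restriction map `H^k_G(ℂ^ι; ℚ) → H^k_G(S; ℚ)`. -/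
def restr (G : Subgroup (Matrix.unitaryGroup ι ℂ)) (S : Set (ι → ℂ)) (k : ℕ) :
    Coh (Borel G (Set.univ : Set (ι → ℂ))) k → Coh (Borel G S) k :=
  cohMap (borelIncl G S) k

/-! Moment maps, central and regular values, the locally free locus. -/

/-- The Lie algebra of `G`, as the set of velocities at `1` of curves in `G` through `1`
(matrices `X` that are derivatives at `0`, entry by entry, of curves in `G`). -/
def lieAlg (G : Subgroup (Matrix.unitaryGroup ι ℂ)) : Set (Matrix ι ι ℂ) :=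
  {X | ∃ γ : ℝ → Matrix.unitaryGroup ι ℂ, (∀ s, γ s ∈ G) ∧ γ 0 = 1 ∧
    ∀ i j, HasDerivAt (fun s => (γ s).1 i j) (X i j) 0}

/-- The component along `X` of the homogeneous quadratic moment map of `ℂ^ι` with `μ(0) = 0`:
`⟨μ(z), X⟩ = (√-1 / 2) z^* X z`, a real number for `X` skew-hermitian. -/
def moment (X : Matrix ι ι ℂ) (z : ι → ℂ) : ℝ := (Complex.I / 2 * (star z ⬝ᵥ (X *ᵥ z))).re

/-- `α` is a central element of the dual of the Lie algebra: a real linear functional which is
fixed by the coadjoint action. -/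
def IsCentral (G : Subgroup (Matrix.unitaryGroup ι ℂ)) (α : Matrix ι ι ℂ → ℝ) : Prop :=
  (∀ X ∈ lieAlg G, ∀ Y ∈ lieAlg G, ∀ r s : ℝ, α (r • X + s • Y) = r * α X + s * α Y) ∧
  ∀ g ∈ G, ∀ X ∈ lieAlg G, α (g.1 * X * (g⁻¹).1) = α X

/-- The level set `μ⁻¹(α)`. -/
def level (G : Subgroup (Matrix.unitaryGroup ι ℂ)) (α : Matrix ι ι ℂ → ℝ) : Set (ι → ℂ) :=
  {z | ∀ X ∈ lieAlg G, moment X z = α X}

/-- `α` is a regular value of `μ`: at every `z ∈ μ⁻¹(α)` the derivative of `μ` is onto the dual of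
the Lie algebra, that is, no nonzero `X` in the Lie algebra annihilates its image. -/
def IsRegular (G : Subgroup (Matrix.unitaryGroup ι ℂ)) (α : Matrix ι ι ℂ → ℝ) : Prop :=
  ∀ z ∈ level G α, ∀ X ∈ lieAlg G,
    (∀ v : ι → ℂ, HasDerivAt (fun t : ℝ => moment X (z + t • v)) 0 0) → X = 0

/-- The locus of points with finite stabiliser, where `G` acts locally freely. -/
def locFree (G : Subgroup (Matrix.unitaryGroup ι ℂ)) : Set (ι → ℂ) :=
  {z | {g : Matrix.unitaryGroup ι ℂ | g ∈ G ∧ g.1 *ᵥ z = z}.Finite}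

section Machine

/-! Chains of small moves in a contractible compact space -/

instance contr_simplex (n : ℕ) : ContractibleSpace (stdSimplex ℝ (Fin (n + 1))) :=
  (convex_stdSimplex ℝ _).contractibleSpace ⟨_, single_mem_stdSimplex ℝ 0⟩

instance compact_simplex (n : ℕ) : CompactSpace (stdSimplex ℝ (Fin (n + 1))) :=
  isCompact_iff_compactSpace.1 (isCompact_stdSimplex ℝ _)

instance preconn_simplex (n : ℕ) : PreconnectedSpace (stdSimplex ℝ (Fin (n + 1))) :=
  inferInstance

lemma chain {Δ : Type} [MetricSpace Δ] [CompactSpace Δ] [ContractibleSpace Δ] (W : Set (Δ × Δ))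
    (hW : IsOpen W) (hd : ∀ x, (x, x) ∈ W) :
    ∃ (m : ℕ) (p : ℕ → C(Δ, Δ)) (y : Δ), (∀ x, p 0 x = y) ∧ (∀ x, p m x = x) ∧
      ∀ k < m, ∀ x, (p k x, p (k + 1) x) ∈ W := by
  obtain ⟨y, ⟨F⟩⟩ := id_nullhomotopic Δ
  have hWu : W ∈ uniformity Δ := by
    rw [← nhdsSet_diagonal_eq_uniformity]
    exact hW.mem_nhdsSet.2 (by
      rintro ⟨a, b⟩ hab
      have : a = b := hab
      subst this
      exact hd a)
  have huc : UniformContinuous (F : unitInterval × Δ → Δ) :=
    CompactSpace.uniformContinuous_of_continuous F.continuous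
  obtain ⟨ε, hε, hball⟩ := Metric.mem_uniformity_dist.1 (Filter.mem_map.1 (huc hWu))
  obtain ⟨n, hn⟩ := exists_nat_one_div_lt hε
  let m : ℕ := n + 1
  let τ : ℕ → unitInterval := fun k => Set.projIcc (0 : ℝ) 1 zero_le_one (1 - k / m)
  refine ⟨m, fun k => F.toContinuousMap.comp ⟨fun x => (τ k, x), by fun_prop⟩, y, ?_, ?_, ?_⟩
  · intro x
    show F (τ 0, x) = y
    have : τ 0 = 1 := by
      apply Subtype.ext
      simp [τ, Set.projIcc]
    rw [this]
    simp
  · intro x
    show F (τ m, x) = x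
    have : τ m = 0 := by
      apply Subtype.ext
      have hm : (m : ℝ) ≠ 0 := by
        simp only [m]
        positivity
      simp [τ, Set.projIcc, hm]
    rw [this]
    simp
  · intro k _ x
    refine hball (a := (τ k, x)) (b := (τ (k + 1), x)) ?_
    rw [Prod.dist_eq]
    simp only [dist_self, dist_nonneg, sup_of_le_left]
    have hm : (0 : ℝ) < m := by
      simp only [m]
      positivity
    have h1 : dist (τ k) (τ (k + 1)) ≤ |(1 - (k : ℝ) / m) - (1 - ((k + 1 : ℕ) : ℝ) / m)| := by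
      have := Set.abs_projIcc_sub_projIcc (c := 1 - (k : ℝ) / m)
        (d := 1 - ((k + 1 : ℕ) : ℝ) / m) (zero_le_one (α := ℝ))
      exact this
    refine lt_of_le_of_lt h1 ?_
    have h2 : (1 - (k : ℝ) / m) - (1 - ((k + 1 : ℕ) : ℝ) / m) = 1 / m := by
      push_cast
      field_simp
      ring
    rw [h2, abs_of_pos (by positivity)]
    have h3 : (1 : ℝ) / m = 1 / ((n : ℝ) + 1) := by
      simp [m]
    rw [h3]
    exact hn

/-! Continuous logarithms -/

lemma exists_log {Δ : Type} [MetricSpace Δ] [CompactSpace Δ] [ContractibleSpace Δ] (r : C(Δ, ℂ))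
    (hr : ∀ x, r x ≠ 0) : ∃ ψ : C(Δ, ℂ), ∀ x, Complex.exp (ψ x) = r x := by
  obtain ⟨m, p, y, h0, hm, hW⟩ := chain {q : Δ × Δ | ‖r q.2 / r q.1 - 1‖ < 1} (by
    apply isOpen_lt _ continuous_const
    refine (Continuous.sub (Continuous.div ?_ ?_ fun q => hr _) continuous_const).norm
    · exact r.continuous.comp continuous_snd
    · exact r.continuous.comp continuous_fst) (fun x => by
      show ‖r x / r x - 1‖ < 1
      rw [div_self (hr x)]
      simp)
  have key : ∀ k ≤ m, ∃ ψ : C(Δ, ℂ), ∀ x, Complex.exp (ψ x) = r (p k x) := by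
    intro k
    induction k with
    | zero =>
      intro _
      refine ⟨ContinuousMap.const _ (Complex.log (r y)), fun x => ?_⟩
      rw [ContinuousMap.const_apply, Complex.exp_log (hr y), h0]
    | succ k ih =>
      intro hk
      obtain ⟨ψ, hψ⟩ := ih (by omega)
      have hc : Continuous fun x => Complex.log (r (p (k + 1) x) / r (p k x)) := by
        refine Continuous.clog ?_ ?_
        · exact Continuous.div (by fun_prop) (by fun_prop) fun x => hr _
        · intro x
          have h1 : ‖r (p (k + 1) x) / r (p k x) - 1‖ < 1 := hW k (by omega) x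
          have h2 := Complex.mem_slitPlane_of_norm_lt_one h1
          rwa [add_sub_cancel] at h2
      refine ⟨⟨fun x => ψ x + Complex.log (r (p (k + 1) x) / r (p k x)),
        ψ.continuous.add hc⟩, fun x => ?_⟩
      show Complex.exp (ψ x + Complex.log (r (p (k + 1) x) / r (p k x))) = _
      rw [Complex.exp_add, hψ, Complex.exp_log (div_ne_zero (hr _) (hr _)),
        mul_div_cancel₀ _ (hr _)]
  obtain ⟨ψ, hψ⟩ := key m le_rfl
  exact ⟨ψ, fun x => by rw [hψ, hm]⟩

lemma log_unique {Δ : Type} [TopologicalSpace Δ] [PreconnectedSpace Δ] (ψ ψ' : C(Δ, ℂ))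
    (h : ∀ x, Complex.exp (ψ x) = Complex.exp (ψ' x)) (a b : Δ) :
    ψ a - ψ' a = ψ b - ψ' b := by
  have hc : Continuous fun x => ψ x - ψ' x := by fun_prop
  refine Complex.isCoveringMap_exp.const_of_comp hc ?_ a b
  intro x y
  apply Subtype.ext
  show Complex.exp (ψ x - ψ' x) = Complex.exp (ψ y - ψ' y)
  rw [Complex.exp_sub, Complex.exp_sub, h, h, div_self (Complex.exp_ne_zero _),
    div_self (Complex.exp_ne_zero _)]

/-- The vertices of the standard `1`-simplex. -/
def v0 : stdSimplex ℝ (Fin 2) := stdSimplex.vertex 0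
def v1 : stdSimplex ℝ (Fin 2) := stdSimplex.vertex 1

open Classical in
/-- The increment of a continuous logarithm of `r` along the standard `1`-simplex. -/
def logInc (r : C(stdSimplex ℝ (Fin 2), ℂ)) : ℂ :=
  if h : ∃ ψ : C(stdSimplex ℝ (Fin 2), ℂ), ∀ x, Complex.exp (ψ x) = r x then
    h.choose v1 - h.choose v0 else 0

lemma logInc_eq (r ψ : C(stdSimplex ℝ (Fin 2), ℂ)) (h : ∀ x, Complex.exp (ψ x) = r x) :
    logInc r = ψ v1 - ψ v0 := by
  have hex : ∃ ψ : C(stdSimplex ℝ (Fin 2), ℂ), ∀ x, Complex.exp (ψ x) = r x := ⟨ψ, h⟩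
  rw [logInc, dif_pos hex]
  have := log_unique hex.choose ψ (fun x => by rw [hex.choose_spec, h]) v1 v0
  linear_combination this

lemma logInc_mul (r r' : C(stdSimplex ℝ (Fin 2), ℂ)) (hr : ∀ x, r x ≠ 0) (hr' : ∀ x, r' x ≠ 0) :
    logInc (r * r') = logInc r + logInc r' := by
  obtain ⟨ψ, hψ⟩ := exists_log r hr
  obtain ⟨ψ', hψ'⟩ := exists_log r' hr'
  rw [logInc_eq r ψ hψ, logInc_eq r' ψ' hψ', logInc_eq (r * r') (ψ + ψ') (fun x => by
    rw [ContinuousMap.add_apply, Complex.exp_add, hψ, hψ', ContinuousMap.mul_apply])]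
  rw [ContinuousMap.add_apply, ContinuousMap.add_apply]
  ring

/-! Line fields and their lifts -/

variable {Y : Type} [TopologicalSpace Y] {I : Type}

/-- The nonzero vectors in the line over `y`. -/
def ln (n : I → I → C(Y, ℂ)) (y : Y) : Set (I → ℂ) :=
  {v | ∃ (u : I → ℂ) (a : ℂ), a ≠ 0 ∧ u ≠ 0 ∧ (∀ i j, n i j y = u i * star (u j)) ∧ v = a • u}

lemma ln_ne_zero {n : I → I → C(Y, ℂ)} {y : Y} {v : I → ℂ} (hv : v ∈ ln n y) : v ≠ 0 := by
  obtain ⟨u, a, ha, hu, -, rfl⟩ := hv
  exact smul_ne_zero ha hu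

lemma ln_ratio {n : I → I → C(Y, ℂ)} {y : Y} {v v' : I → ℂ} (hv : v ∈ ln n y)
    (hv' : v' ∈ ln n y) : ∃ a : ℂ, a ≠ 0 ∧ v' = a • v := by
  obtain ⟨u, a, ha, hu, hn, rfl⟩ := hv
  obtain ⟨u', a', ha', hu', hn', rfl⟩ := hv'
  obtain ⟨j, hj⟩ := Function.ne_iff.1 hu
  have hj0 : u j ≠ 0 := hj
  have h1 : u j * star (u j) = u' j * star (u' j) := by rw [← hn, hn']
  have hj' : u' j ≠ 0 := by
    intro h
    rw [h, zero_mul] at h1
    rcases mul_eq_zero.1 h1 with h | h
    · exact hj0 h
    · exact hj0 (star_eq_zero.1 h)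
  have hs' : star (u' j) ≠ 0 := fun h => hj' (star_eq_zero.1 h)
  have hs : star (u j) ≠ 0 := fun h => hj0 (star_eq_zero.1 h)
  have h2 : ∀ i, u' i = u i * (star (u j) / star (u' j)) := by
    intro i
    have : u i * star (u j) = u' i * star (u' j) := by rw [← hn, hn']
    field_simp
    exact this.symm
  refine ⟨a' * (star (u j) / star (u' j)) / a,
    div_ne_zero (mul_ne_zero ha' (div_ne_zero hs hs')) ha, ?_⟩
  funext i
  simp only [Pi.smul_apply, smul_eq_mul]
  rw [h2 i]
  field_simp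

/-- `V` is a lift of `h` to the nonzero vectors of the line field. -/
def IsLift {Z : Type} [TopologicalSpace Z] (n : I → I → C(Y, ℂ)) (h : C(Z, Y))
    (V : C(Z, I → ℂ)) : Prop := ∀ z, V z ∈ ln n (h z)

lemma lift_ratio {Z : Type} [TopologicalSpace Z] {n : I → I → C(Y, ℂ)} {h : C(Z, Y)}
    {V V' : C(Z, I → ℂ)} (hV : IsLift n h V) (hV' : IsLift n h V') :
    ∃ r : C(Z, ℂ), (∀ z, r z ≠ 0) ∧ ∀ z, V' z = r z • V z := by
  choose r hr0 hr using fun z => ln_ratio (hV z) (hV' z)
  refine ⟨⟨r, ?_⟩, hr0, hr⟩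
  rw [continuous_iff_continuousAt]
  intro z
  obtain ⟨i, hi⟩ := Function.ne_iff.1 (ln_ne_zero (hV z))
  have hi0 : V z i ≠ 0 := hi
  have hVi : Continuous fun z => V z i := (continuous_apply i).comp V.continuous
  have hVi' : Continuous fun z => V' z i := (continuous_apply i).comp V'.continuous
  have hc : ContinuousAt (fun z => V' z i / V z i) z :=
    ContinuousAt.div hVi'.continuousAt hVi.continuousAt hi0
  refine hc.congr ?_
  have hopen : ∀ᶠ z' in nhds z, V z' i ≠ 0 := hVi.continuousAt.eventually_ne hi0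
  filter_upwards [hopen] with z' hz'
  rw [hr z', Pi.smul_apply, smul_eq_mul, mul_div_cancel_right₀ _ hz']

lemma exists_lift (n : I → I → C(Y, ℂ))
    (hn : ∀ y, ∃ u : I → ℂ, u ≠ 0 ∧ ∀ i j, n i j y = u i * star (u j))
    {Δ : Type} [MetricSpace Δ] [CompactSpace Δ] [ContractibleSpace Δ] (h : C(Δ, Y)) :
    ∃ V : C(Δ, I → ℂ), IsLift n h V := by
  classical
  -- a finite set of coordinates which is enough on the compact image of `h`
  obtain ⟨F, hF⟩ : ∃ F : Finset I, ∀ x, ∃ i ∈ F, n i i (h x) ≠ 0 := by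
    have hcov : (Set.univ : Set Δ) ⊆ ⋃ i : I, {x | n i i (h x) ≠ 0} := by
      intro x _
      obtain ⟨u, hu, hun⟩ := hn (h x)
      obtain ⟨i, hi⟩ := Function.ne_iff.1 hu
      refine Set.mem_iUnion.2 ⟨i, ?_⟩
      show n i i (h x) ≠ 0
      rw [hun]
      exact mul_ne_zero hi fun h => hi (star_eq_zero.1 h)
    obtain ⟨F, hF⟩ := isCompact_univ.elim_finite_subcover _ (fun i => by
      exact isOpen_ne_fun (by fun_prop) continuous_const) hcov
    refine ⟨F, fun x => ?_⟩
    obtain ⟨i, hi, hx⟩ := Set.mem_iUnion₂.1 (hF (Set.mem_univ x))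
    exact ⟨i, hi, hx⟩
  obtain ⟨m, p, y, h0, hm, hW⟩ := chain
    {q : Δ × Δ | ∑ i ∈ F, ∑ j ∈ F, n i j (h q.1) * n j i (h q.2) ≠ 0} (by
      apply isOpen_ne_fun _ continuous_const
      fun_prop) (fun x => by
      show ∑ i ∈ F, ∑ j ∈ F, n i j (h x) * n j i (h x) ≠ 0
      obtain ⟨u, hu, hun⟩ := hn (h x)
      obtain ⟨k, hkF, hk⟩ := hF x
      have h1 : ∑ i ∈ F, ∑ j ∈ F, n i j (h x) * n j i (h x)
          = (∑ i ∈ F, u i * star (u i)) ^ 2 := by
        rw [sq, Finset.sum_mul_sum]
        refine Finset.sum_congr rfl fun i _ => Finset.sum_congr rfl fun j _ => ?_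
        rw [hun, hun]
        ring
      rw [h1]
      apply pow_ne_zero
      have h2 : ∑ i ∈ F, u i * star (u i) = ((∑ i ∈ F, Complex.normSq (u i) : ℝ) : ℂ) := by
        push_cast
        exact Finset.sum_congr rfl fun i _ => Complex.mul_conj _
      rw [h2]
      norm_cast
      intro h3
      have h4 := (Finset.sum_eq_zero_iff_of_nonneg fun i _ => Complex.normSq_nonneg (u i)).1 h3 k hkF
      rw [Complex.normSq_eq_zero] at h4
      apply hk
      rw [hun, h4, zero_mul])
  have key : ∀ k ≤ m, ∃ V : C(Δ, I → ℂ), ∀ x, V x ∈ ln n (h (p k x)) := by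
    intro k
    induction k with
    | zero =>
      intro _
      obtain ⟨u, hu, hun⟩ := hn (h y)
      refine ⟨ContinuousMap.const _ u, fun x => ?_⟩
      rw [h0, ContinuousMap.const_apply]
      exact ⟨u, 1, one_ne_zero, hu, hun, by rw [one_smul]⟩
    | succ k ih =>
      intro hk
      obtain ⟨V, hV⟩ := ih (by omega)
      refine ⟨⟨fun x i => ∑ j ∈ F, n i j (h (p (k + 1) x)) * V x j, ?_⟩, fun x => ?_⟩
      · apply continuous_pi
        intro i
        refine continuous_finsetSum _ fun j _ => ?_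
        have hVj : Continuous fun x => V x j := (continuous_apply j).comp V.continuous
        exact Continuous.mul (by fun_prop) hVj
      · obtain ⟨u, a, ha, hu, hun, hVx⟩ := hV x
        obtain ⟨u', hu', hun'⟩ := hn (h (p (k + 1) x))
        have hne : ∑ j ∈ F, star (u' j) * u j ≠ 0 := by
          intro hz
          apply hW k (by omega) x
          show ∑ i ∈ F, ∑ j ∈ F, n i j (h (p k x)) * n j i (h (p (k + 1) x)) = 0
          have h1 : ∑ i ∈ F, ∑ j ∈ F, n i j (h (p k x)) * n j i (h (p (k + 1) x))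
              = (∑ i ∈ F, star (u' i) * u i) * ∑ j ∈ F, star (u j) * u' j := by
            rw [Finset.sum_mul_sum]
            refine Finset.sum_congr rfl fun i _ => Finset.sum_congr rfl fun j _ => ?_
            rw [hun, hun']
            ring
          rw [h1, hz, zero_mul]
        refine ⟨u', a * ∑ j ∈ F, star (u' j) * u j, mul_ne_zero ha hne, hu', hun', ?_⟩
        funext i
        show ∑ j ∈ F, n i j (h (p (k + 1) x)) * V x j = _
        rw [Pi.smul_apply, smul_eq_mul, mul_assoc, Finset.sum_mul, Finset.mul_sum]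
        refine Finset.sum_congr rfl fun j _ => ?_
        rw [hun', hVx, Pi.smul_apply, smul_eq_mul]
        ring
  obtain ⟨V, hV⟩ := key m le_rfl
  exact ⟨V, fun x => by
    have := hV x
    rwa [hm] at this⟩


/-! The Chern cocycle of a line field -/

open Classical in
/-- The increment of the logarithm of the ratio of two lifts of the same path. -/
def inc (V V' : C(stdSimplex ℝ (Fin 2), I → ℂ)) : ℂ :=
  if h : ∃ r : C(stdSimplex ℝ (Fin 2), ℂ), (∀ x, r x ≠ 0) ∧ ∀ x, V x = r x • V' x then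
    logInc h.choose else 0

lemma inc_eq {V V' : C(stdSimplex ℝ (Fin 2), I → ℂ)} (r : C(stdSimplex ℝ (Fin 2), ℂ))
    (hV' : ∀ x, V' x ≠ 0) (hr0 : ∀ x, r x ≠ 0) (hr : ∀ x, V x = r x • V' x) :
    inc V V' = logInc r := by
  have hex : ∃ r : C(stdSimplex ℝ (Fin 2), ℂ), (∀ x, r x ≠ 0) ∧ ∀ x, V x = r x • V' x :=
    ⟨r, hr0, hr⟩
  rw [inc, dif_pos hex]
  congr 1
  apply ContinuousMap.ext
  intro x
  have h1 := hex.choose_spec.2 x
  rw [hr x] at h1
  exact (smul_left_injective ℂ (hV' x) h1).symm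

/-- A rational linear functional on `ℂ` with value `1` at `2πi`. -/
lemma exists_phi : ∃ φ : ℂ →ₗ[ℚ] ℚ, φ (2 * Real.pi * Complex.I) = 1 := by
  have hne : (2 * Real.pi * Complex.I : ℂ) ≠ 0 := by
    simp [Real.pi_ne_zero]
  obtain ⟨g, hg⟩ := LinearMap.exists_leftInverse_of_injective
    (LinearMap.toSpanSingleton ℚ ℂ (2 * Real.pi * Complex.I))
    (LinearMap.ker_eq_bot.2 (smul_left_injective ℚ hne))
  refine ⟨g, ?_⟩
  have := congrArg (fun f => f 1) hg
  simpa using this

/-- A rational linear functional on `ℂ` with value `1` at `2πi`. -/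
def phi : ℂ →ₗ[ℚ] ℚ := exists_phi.choose

lemma phi_spec : phi (2 * Real.pi * Complex.I) = 1 := exists_phi.choose_spec

variable (n : I → I → C(Y, ℂ))
  (hn : ∀ y, ∃ u : I → ℂ, u ≠ 0 ∧ ∀ i j, n i j y = u i * star (u j))

/-- A chosen lift of every singular simplex. -/
def lft {k : ℕ} (σ : Simplex Y k) : C(stdSimplex ℝ (Fin (k + 1)), I → ℂ) :=
  (exists_lift n hn (show C(stdSimplex ℝ (Fin (k + 1)), Y) from σ)).choose

lemma lft_spec {k : ℕ} (σ : Simplex Y k) :
    IsLift n (show C(stdSimplex ℝ (Fin (k + 1)), Y) from σ) (lft n hn σ) :=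
  (exists_lift n hn (show C(stdSimplex ℝ (Fin (k + 1)), Y) from σ)).choose_spec

/-- The cochain on `Z` obtained by comparing a global lift with the chosen lifts of paths. -/
def bV {Z : Type} [TopologicalSpace Z] (h : C(Z, Y)) (V : C(Z, I → ℂ)) (γ : Simplex Z 1) : ℚ :=
  phi (inc (ContinuousMap.comp V γ) (lft n hn (ContinuousMap.comp h γ)))

/-- The Chern cocycle. -/
def chern (σ : Simplex Y 2) : ℚ :=
  cobd (X := stdSimplex ℝ (Fin 3)) (bV n hn σ (lft n hn σ)) (ContinuousMap.id _)

lemma bV_sub {Z : Type} [TopologicalSpace Z] {h : C(Z, Y)} {V V' : C(Z, I → ℂ)}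
    (hV' : IsLift n h V') (r : C(Z, ℂ)) (hr0 : ∀ z, r z ≠ 0)
    (hr : ∀ z, V z = r z • V' z) (γ : Simplex Z 1) :
    bV n hn h V γ = phi (logInc (ContinuousMap.comp r γ)) + bV n hn h V' γ := by
  let g : C(stdSimplex ℝ (Fin 2), Z) := γ
  have hlft := lft_spec n hn (ContinuousMap.comp h γ)
  obtain ⟨s, hs0, hs⟩ := lift_ratio hlft (V' := ContinuousMap.comp V' g) (fun x => hV' (g x))
  have hne : ∀ x, lft n hn (ContinuousMap.comp h γ) x ≠ 0 := fun x => ln_ne_zero (hlft x)
  have h1 : inc (ContinuousMap.comp V' γ) (lft n hn (ContinuousMap.comp h γ)) = logInc s :=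
    inc_eq s hne hs0 hs
  have h2 : inc (ContinuousMap.comp V γ) (lft n hn (ContinuousMap.comp h γ))
      = logInc (ContinuousMap.comp r g * s) := by
    apply inc_eq _ hne
    · intro x
      exact mul_ne_zero (hr0 (g x)) (hs0 x)
    · intro x
      show V (g x) = (r (g x) * s x) • _
      rw [hr, mul_smul, ← hs x]
      rfl
  rw [bV, bV, h1, h2, logInc_mul _ _ (fun x => hr0 (g x)) hs0, map_add]

lemma cobd_logInc {Z : Type} [TopologicalSpace Z] (r : C(Z, ℂ)) (hr : ∀ z, r z ≠ 0)
    (σ : Simplex Z 2) : cobd (fun γ : Simplex Z 1 => phi (logInc (ContinuousMap.comp r γ))) σ = 0 := by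
  let g : C(stdSimplex ℝ (Fin 3), Z) := σ
  obtain ⟨ψ, hψ⟩ := exists_log (r.comp g) (fun x => hr (g x))
  have hface : ∀ i : Fin 3, logInc (ContinuousMap.comp r (face i σ))
      = ψ (stdSimplex.vertex (i.succAbove 1)) - ψ (stdSimplex.vertex (i.succAbove 0)) := by
    intro i
    let d : C(stdSimplex ℝ (Fin 2), stdSimplex ℝ (Fin 3)) :=
      ⟨stdSimplex.map i.succAbove, stdSimplex.continuous_map _⟩
    rw [logInc_eq (ContinuousMap.comp r (face i σ)) (ψ.comp d) (fun x => hψ (d x))]
    show ψ (stdSimplex.map i.succAbove (stdSimplex.vertex 1))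
      - ψ (stdSimplex.map i.succAbove (stdSimplex.vertex 0)) = _
    rw [stdSimplex.map_vertex, stdSimplex.map_vertex]
  show ∑ i : Fin 3, (-1 : ℚ) ^ (i : ℕ) * phi (logInc (ContinuousMap.comp r (face i σ))) = 0
  simp only [hface]
  rw [Fin.sum_univ_three]
  have e1 : (0 : Fin 3).succAbove (1 : Fin 2) = 2 := rfl
  have e2 : (0 : Fin 3).succAbove (0 : Fin 2) = 1 := rfl
  have e3 : (1 : Fin 3).succAbove (1 : Fin 2) = 2 := rfl
  have e4 : (1 : Fin 3).succAbove (0 : Fin 2) = 0 := rfl
  have e5 : (2 : Fin 3).succAbove (1 : Fin 2) = 1 := rfl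
  have e6 : (2 : Fin 3).succAbove (0 : Fin 2) = 0 := rfl
  rw [e1, e2, e3, e4, e5, e6]
  simp only [map_sub, Fin.val_zero, Fin.val_one, Fin.val_two, pow_zero, pow_one]
  ring

lemma cobd_add {X : Type} [TopologicalSpace X] {k : ℕ} (c c' : Simplex X k → ℚ)
    (σ : Simplex X (k + 1)) : cobd (fun γ => c γ + c' γ) σ = cobd c σ + cobd c' σ := by
  simp only [cobd, mul_add, Finset.sum_add_distrib]

/-- The pullback of the Chern cocycle to a space with a global lift is a coboundary. -/
lemma chern_comp {Z : Type} [TopologicalSpace Z] (h : C(Z, Y)) (V : C(Z, I → ℂ))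
    (hV : IsLift n h V) (σ : Simplex Z 2) :
    chern n hn (ContinuousMap.comp h σ) = cobd (bV n hn h V) σ := by
  let g : C(stdSimplex ℝ (Fin 3), Z) := σ
  have hlft := lft_spec n hn (ContinuousMap.comp h σ)
  have hVg : IsLift n (h.comp g) (V.comp g) := fun x => hV (g x)
  obtain ⟨s, hs0, hs⟩ := lift_ratio hVg (V' := lft n hn (ContinuousMap.comp h σ)) hlft
  have h1 : cobd (X := stdSimplex ℝ (Fin 3)) (bV n hn (ContinuousMap.comp h σ)
      (lft n hn (ContinuousMap.comp h σ))) (ContinuousMap.id _)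
      = cobd (X := stdSimplex ℝ (Fin 3)) (bV n hn (h.comp g) (V.comp g))
        (ContinuousMap.id _) := by
    have h2 : (bV n hn (ContinuousMap.comp h σ) (lft n hn (ContinuousMap.comp h σ)))
        = fun γ : Simplex (stdSimplex ℝ (Fin 3)) 1 => phi (logInc (ContinuousMap.comp s γ))
          + bV n hn (h.comp g) (V.comp g) γ := by
      funext γ
      exact bV_sub n hn hVg s hs0 hs γ
    rw [h2]
    refine (cobd_add (X := stdSimplex ℝ (Fin 3)) _ _ _).trans ?_
    refine (congrArg (fun t => t + _) (cobd_logInc (Z := stdSimplex ℝ (Fin 3)) s hs0 _)).trans ?_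
    exact zero_add _
  exact h1

lemma face_face {Z : Type} [TopologicalSpace Z] {k : ℕ} (i i' : Fin (k + 2)) (j j' : Fin (k + 3))
    (h : ∀ l : Fin (k + 1), j.succAbove (i.succAbove l) = j'.succAbove (i'.succAbove l))
    (σ : Simplex Z (k + 2)) : face i (face j σ) = face i' (face j' σ) := by
  let g : C(stdSimplex ℝ (Fin (k + 3)), Z) := σ
  apply ContinuousMap.ext
  intro x
  show g (stdSimplex.map j.succAbove (stdSimplex.map i.succAbove x))
    = g (stdSimplex.map j'.succAbove (stdSimplex.map i'.succAbove x))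
  rw [stdSimplex.map_comp_apply, stdSimplex.map_comp_apply]
  congr 2
  funext l
  exact h l

lemma cobd_cobd {Z : Type} [TopologicalSpace Z] (c : Simplex Z 1 → ℚ) (σ : Simplex Z 3) :
    cobd (fun τ : Simplex Z 2 => cobd c τ) σ = 0 := by
  show ∑ i : Fin 4, (-1 : ℚ) ^ (i : ℕ) * ∑ j : Fin 3, (-1) ^ (j : ℕ) * c (face j (face i σ)) = 0
  rw [Fin.sum_univ_four]
  simp only [Fin.sum_univ_three]
  rw [face_face (Z := Z) 0 0 1 0 (by decide) σ, face_face (Z := Z) 0 1 2 0 (by decide) σ,
    face_face (Z := Z) 0 2 3 0 (by decide) σ, face_face (Z := Z) 1 1 2 1 (by decide) σ,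
    face_face (Z := Z) 1 2 3 1 (by decide) σ, face_face (Z := Z) 2 2 3 2 (by decide) σ]
  have v3 : ((3 : Fin 4) : ℕ) = 3 := rfl
  have v2 : ((2 : Fin 4) : ℕ) = 2 := rfl
  have v1 : ((1 : Fin 4) : ℕ) = 1 := rfl
  have v0 : ((0 : Fin 4) : ℕ) = 0 := rfl
  have w2 : ((2 : Fin 3) : ℕ) = 2 := rfl
  have w1 : ((1 : Fin 3) : ℕ) = 1 := rfl
  have w0 : ((0 : Fin 3) : ℕ) = 0 := rfl
  rw [v3, v2, v1, v0, w2, w1, w0]
  ring

lemma chern_cocycle : IsCocycle (chern n hn) := by
  intro τ
  let g : C(stdSimplex ℝ (Fin 4), Y) := τ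
  have hlft := lft_spec n hn τ
  have h1 : ∀ i : Fin 4, chern n hn (face i τ)
      = cobd (bV n hn g (lft n hn τ)) (face (X := stdSimplex ℝ (Fin 4)) i (ContinuousMap.id _)) := by
    intro i
    exact chern_comp n hn g (lft n hn τ) hlft
      (face (X := stdSimplex ℝ (Fin 4)) i (ContinuousMap.id _))
  show ∑ i : Fin 4, (-1 : ℚ) ^ (i : ℕ) * chern n hn (face i τ) = 0
  simp only [h1]
  exact cobd_cobd (bV n hn g (lft n hn τ)) (ContinuousMap.id _)


/-! A nontriviality criterion -/

lemma coord_continuous {k : ℕ} (j : Fin (k + 1)) :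
    Continuous fun t : stdSimplex ℝ (Fin (k + 1)) => t j :=
  (continuous_apply j).comp continuous_subtype_val

/-- A triangle of the unit square. -/
def triA : Simplex (ℝ × ℝ) 2 :=
  (⟨fun t => (t 1 + t 2, t 2), ((coord_continuous 1).add (coord_continuous 2)).prodMk
    (coord_continuous 2)⟩ : C(stdSimplex ℝ (Fin 3), ℝ × ℝ))

/-- The other triangle of the unit square. -/
def triB : Simplex (ℝ × ℝ) 2 :=
  (⟨fun t => (t 2, t 1 + t 2), (coord_continuous 2).prodMk
    ((coord_continuous 1).add (coord_continuous 2))⟩ : C(stdSimplex ℝ (Fin 3), ℝ × ℝ))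

/-- A path in the plane. -/
def pathC (f : C(ℝ, ℝ × ℝ)) : Simplex (ℝ × ℝ) 1 :=
  (⟨fun t => f (t 1), f.continuous.comp (coord_continuous 1)⟩ : C(stdSimplex ℝ (Fin 2), ℝ × ℝ))

/-- The right edge, the bottom edge, the top edge, the left edge and the diagonal. -/
def edR : C(ℝ, ℝ × ℝ) := ⟨fun x => (1, x), by fun_prop⟩
def edB : C(ℝ, ℝ × ℝ) := ⟨fun x => (x, 0), by fun_prop⟩
def edT : C(ℝ, ℝ × ℝ) := ⟨fun x => (x, 1), by fun_prop⟩
def edL : C(ℝ, ℝ × ℝ) := ⟨fun x => (0, x), by fun_prop⟩
def edD : C(ℝ, ℝ × ℝ) := ⟨fun x => (x, x), by fun_prop⟩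

lemma map_coords (i : Fin 3) (t : stdSimplex ℝ (Fin 2)) (j : Fin 3) :
    (stdSimplex.map i.succAbove t) j
      = (if i.succAbove 0 = j then t 0 else 0) + (if i.succAbove 1 = j then t 1 else 0) := by
  rw [stdSimplex.map_coe, FunOnFinite.linearMap_apply_apply, Finset.sum_filter, Fin.sum_univ_two]

lemma face_triA (i : Fin 3) (f : C(ℝ, ℝ × ℝ))
    (h : ∀ t : stdSimplex ℝ (Fin 2), ((stdSimplex.map i.succAbove t) 1
      + (stdSimplex.map i.succAbove t) 2, (stdSimplex.map i.succAbove t) 2) = f (t 1)) :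
    face i triA = pathC f := by
  apply ContinuousMap.ext
  intro t
  exact h t

lemma face_triB (i : Fin 3) (f : C(ℝ, ℝ × ℝ))
    (h : ∀ t : stdSimplex ℝ (Fin 2), ((stdSimplex.map i.succAbove t) 2,
      (stdSimplex.map i.succAbove t) 1 + (stdSimplex.map i.succAbove t) 2) = f (t 1)) :
    face i triB = pathC f := by
  apply ContinuousMap.ext
  intro t
  exact h t

lemma face_triA0 : face (0 : Fin 3) triA = pathC edR := by
  apply face_triA
  intro t
  have h0 := stdSimplex.add_eq_one t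
  rw [map_coords, map_coords, if_pos (by decide), if_neg (by decide), if_neg (by decide),
    if_pos (by decide), add_zero, zero_add, h0]
  rfl

lemma face_triA1 : face (1 : Fin 3) triA = pathC edD := by
  apply face_triA
  intro t
  rw [map_coords, map_coords, if_neg (by decide), if_neg (by decide), if_neg (by decide),
    if_pos (by decide), add_zero, zero_add, zero_add]
  rfl

lemma face_triA2 : face (2 : Fin 3) triA = pathC edB := by
  apply face_triA
  intro t
  rw [map_coords, map_coords, if_neg (by decide), if_pos (by decide), if_neg (by decide),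
    if_neg (by decide), zero_add, add_zero, add_zero]
  rfl

lemma face_triB0 : face (0 : Fin 3) triB = pathC edT := by
  apply face_triB
  intro t
  have h0 := stdSimplex.add_eq_one t
  rw [map_coords, map_coords, if_neg (by decide), if_pos (by decide), if_pos (by decide),
    if_neg (by decide), zero_add, add_zero, h0]
  rfl

lemma face_triB1 : face (1 : Fin 3) triB = pathC edD := by
  apply face_triB
  intro t
  rw [map_coords, map_coords, if_neg (by decide), if_pos (by decide), if_neg (by decide),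
    if_neg (by decide), zero_add, zero_add, zero_add]
  rfl

lemma face_triB2 : face (2 : Fin 3) triB = pathC edL := by
  apply face_triB
  intro t
  rw [map_coords, map_coords, if_neg (by decide), if_neg (by decide), if_neg (by decide),
    if_pos (by decide), zero_add, add_zero, zero_add]
  rfl

lemma cobd_tri {X : Type} [TopologicalSpace X] (h : C(ℝ × ℝ, X)) (c : Simplex X 1 → ℚ) :
    cobd c (ContinuousMap.comp h triA) - cobd c (ContinuousMap.comp h triB)
      = c (ContinuousMap.comp h (pathC edR)) + c (ContinuousMap.comp h (pathC edB))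
        - c (ContinuousMap.comp h (pathC edT)) - c (ContinuousMap.comp h (pathC edL)) := by
  have hA : ∀ i : Fin 3, face i (show Simplex X 2 from ContinuousMap.comp h triA)
      = ContinuousMap.comp h (face i triA) := fun i => rfl
  have hB : ∀ i : Fin 3, face i (show Simplex X 2 from ContinuousMap.comp h triB)
      = ContinuousMap.comp h (face i triB) := fun i => rfl
  show ∑ i : Fin 3, (-1 : ℚ) ^ (i : ℕ) * c (face i (show Simplex X 2 from ContinuousMap.comp h triA))
    - ∑ i : Fin 3, (-1 : ℚ) ^ (i : ℕ) * c (face i (show Simplex X 2 from ContinuousMap.comp h triB))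
    = _
  rw [Fin.sum_univ_three, Fin.sum_univ_three]
  simp only [hA, hB]
  rw [face_triA0, face_triA1, face_triA2, face_triB0, face_triB1, face_triB2]
  simp only [Fin.val_zero, Fin.val_one, Fin.val_two, pow_zero, pow_one]
  ring

/-- If the pullback of the Chern cocycle along `j : Y' → Y` is a coboundary then the winding number
of the line field vanishes on every sphere given by a square whose boundary is collapsed. -/
lemma winding_zero {Y' : Type} [TopologicalSpace Y'] (j : C(Y', Y)) (b : Simplex Y' 1 → ℚ)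
    (hb : ∀ σ : Simplex Y' 2, chern n hn (ContinuousMap.comp j σ) = cobd b σ)
    (h : C(ℝ × ℝ, Y')) (V : C(ℝ × ℝ, I → ℂ)) (hV : IsLift n (j.comp h) V) (y₀ : Y')
    (V₀ : I → ℂ) (κ : ℤ)
    (h1 : ∀ r, h (1, r) = y₀) (h2 : ∀ s, h (s, 0) = y₀) (h3 : ∀ s, h (s, 1) = y₀)
    (h4 : ∀ r, h (0, r) = y₀) (V1 : ∀ r, V (1, r) = V₀)
    (V2 : ∀ s : ℝ, V (s, 0) = Complex.exp (κ * (2 * Real.pi * Complex.I) * s) • V₀)
    (V3 : ∀ s, V (s, 1) = V₀) (V4 : ∀ r, V (0, r) = V₀) : κ = 0 := by
  let e : C(stdSimplex ℝ (Fin 2), Y') := ContinuousMap.const _ y₀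
  have eR : ContinuousMap.comp h (pathC edR) = e := by
    apply ContinuousMap.ext
    intro t
    exact h1 _
  have eB : ContinuousMap.comp h (pathC edB) = e := by
    apply ContinuousMap.ext
    intro t
    exact h2 _
  have eT : ContinuousMap.comp h (pathC edT) = e := by
    apply ContinuousMap.ext
    intro t
    exact h3 _
  have eL : ContinuousMap.comp h (pathC edL) = e := by
    apply ContinuousMap.ext
    intro t
    exact h4 _
  have hc := cobd_tri h b
  rw [eR, eB, eT, eL] at hc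
  have hA := chern_comp n hn (j.comp h) V hV triA
  have hB := chern_comp n hn (j.comp h) V hV triB
  have hA' : chern n hn (ContinuousMap.comp (j.comp h) triA)
      = cobd b (ContinuousMap.comp h triA) := hb (ContinuousMap.comp h triA)
  have hB' : chern n hn (ContinuousMap.comp (j.comp h) triB)
      = cobd b (ContinuousMap.comp h triB) := hb (ContinuousMap.comp h triB)
  have hd := cobd_tri (X := ℝ × ℝ) (ContinuousMap.id _) (bV n hn (j.comp h) V)
  have hd' : cobd (bV n hn (j.comp h) V) triA - cobd (bV n hn (j.comp h) V) triB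
      = bV n hn (j.comp h) V (pathC edR) + bV n hn (j.comp h) V (pathC edB)
        - bV n hn (j.comp h) V (pathC edT) - bV n hn (j.comp h) V (pathC edL) := hd
  -- the values on the edges
  let L₀ : C(stdSimplex ℝ (Fin 2), I → ℂ) := lft n hn (k := 1) (ContinuousMap.comp j e)
  let W₀ : C(stdSimplex ℝ (Fin 2), I → ℂ) := ContinuousMap.const _ V₀
  have bR : bV n hn (j.comp h) V (pathC edR) = phi (inc W₀ L₀) := by
    have a1 : ContinuousMap.comp V (pathC edR) = W₀ := by
      apply ContinuousMap.ext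
      intro t
      exact V1 _
    have a2 : ContinuousMap.comp (j.comp h) (pathC edR) = ContinuousMap.comp j e := by
      rw [← eR]
      rfl
    show phi (inc (ContinuousMap.comp V (pathC edR))
      (lft n hn (k := 1) (ContinuousMap.comp (j.comp h) (pathC edR)))) = _
    rw [a1, a2]
  have bT : bV n hn (j.comp h) V (pathC edT) = phi (inc W₀ L₀) := by
    have a1 : ContinuousMap.comp V (pathC edT) = W₀ := by
      apply ContinuousMap.ext
      intro t
      exact V3 _
    have a2 : ContinuousMap.comp (j.comp h) (pathC edT) = ContinuousMap.comp j e := by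
      rw [← eT]
      rfl
    show phi (inc (ContinuousMap.comp V (pathC edT))
      (lft n hn (k := 1) (ContinuousMap.comp (j.comp h) (pathC edT)))) = _
    rw [a1, a2]
  have bL : bV n hn (j.comp h) V (pathC edL) = phi (inc W₀ L₀) := by
    have a1 : ContinuousMap.comp V (pathC edL) = W₀ := by
      apply ContinuousMap.ext
      intro t
      exact V4 _
    have a2 : ContinuousMap.comp (j.comp h) (pathC edL) = ContinuousMap.comp j e := by
      rw [← eL]
      rfl
    show phi (inc (ContinuousMap.comp V (pathC edL))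
      (lft n hn (k := 1) (ContinuousMap.comp (j.comp h) (pathC edL)))) = _
    rw [a1, a2]
  have bB : bV n hn (j.comp h) V (pathC edB) = κ + phi (inc W₀ L₀) := by
    have a2 : ContinuousMap.comp (j.comp h) (pathC edB) = ContinuousMap.comp j e := by
      rw [← eB]
      rfl
    show phi (inc (ContinuousMap.comp V (pathC edB))
      (lft n hn (k := 1) (ContinuousMap.comp (j.comp h) (pathC edB)))) = _
    rw [a2]
    have hL : IsLift n (j.comp e) L₀ := lft_spec n hn (k := 1) (ContinuousMap.comp j e)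
    have hW : IsLift n (j.comp e) W₀ := by
      intro t
      have := hV (1, 0)
      rw [V1] at this
      have h5 : (j.comp h) (1, 0) = (j.comp e) t := by
        show j (h (1, 0)) = j y₀
        rw [h1]
      rw [← h5]
      exact this
    obtain ⟨s, hs0, hs⟩ := lift_ratio hL hW
    have hne : ∀ x, L₀ x ≠ 0 := fun x => ln_ne_zero (hL x)
    let ψ : C(stdSimplex ℝ (Fin 2), ℂ) :=
      ⟨fun t => κ * (2 * Real.pi * Complex.I) * (t 1 : ℝ),
        continuous_const.mul (Complex.continuous_ofReal.comp (coord_continuous (k := 1) 1))⟩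
    let r : C(stdSimplex ℝ (Fin 2), ℂ) := ⟨fun t => Complex.exp (ψ t), by fun_prop⟩
    have hr : logInc r = κ * (2 * Real.pi * Complex.I) := by
      rw [logInc_eq r ψ (fun _ => rfl)]
      show κ * (2 * Real.pi * Complex.I) * (((Pi.single 1 1 : Fin 2 → ℝ) 1 : ℝ) : ℂ)
        - κ * (2 * Real.pi * Complex.I) * (((Pi.single 0 1 : Fin 2 → ℝ) 1 : ℝ) : ℂ) = _
      simp
    have i1 : inc W₀ L₀ = logInc s := inc_eq s hne hs0 hs
    have i2 : inc (ContinuousMap.comp V (pathC edB)) L₀ = logInc (r * s) := by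
      apply inc_eq _ hne
      · intro x
        exact mul_ne_zero (Complex.exp_ne_zero _) (hs0 x)
      · intro t
        show V (t 1, 0) = (Complex.exp (κ * (2 * Real.pi * Complex.I) * (t 1 : ℝ)) * s t) • L₀ t
        rw [V2, mul_smul, ← hs t]
        rfl
    rw [i1, i2, logInc_mul r s (fun _ => Complex.exp_ne_zero _) hs0, hr, map_add]
    congr 1
    have := phi.map_smul (κ : ℚ) (2 * Real.pi * Complex.I)
    rw [phi_spec] at this
    rw [Rat.smul_def] at this
    push_cast at this
    rw [this]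
    simp
  have : (κ : ℚ) = 0 := by
    rw [bR, bB, bT, bL, ← hA, ← hB, hA', hB', hc] at hd'
    linarith
  exact_mod_cast this


end Machine


/-! The example: `G = U(2)` acting on `ℂ² ⊕ ℂ² ⊕ (ℂ²)^*`, realised by `g ↦ diag (g, g, conj g)`. -/

/-- The index set: `(i, k)` is the `i`-th coordinate of the `k`-th copy of `ℂ²`. -/
abbrev J : Type := Fin 2 × Fin 3

/-- The blocks `g`, `g`, `conj g`. -/
def blk (g : Matrix (Fin 2) (Fin 2) ℂ) (k : Fin 3) : Matrix (Fin 2) (Fin 2) ℂ :=
  if k = 2 then g.map (starRingEnd ℂ) else g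

lemma blk_one (k : Fin 3) : blk 1 k = 1 := by
  unfold blk
  split_ifs
  · exact Matrix.map_one _ (map_zero _) (map_one _)
  · rfl

lemma blk_mul (g h : Matrix (Fin 2) (Fin 2) ℂ) (k : Fin 3) : blk (g * h) k = blk g k * blk h k := by
  unfold blk
  split_ifs
  · exact Matrix.map_mul
  · rfl

lemma blk_conj (g : Matrix (Fin 2) (Fin 2) ℂ) (k : Fin 3) : blk gᴴ k = (blk g k)ᴴ := by
  unfold blk
  split_ifs
  · ext i j
    simp [Matrix.conjTranspose_apply]
  · rfl

/-- The representation `g ↦ diag (g, g, conj g)`. -/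
def emb : Matrix.unitaryGroup (Fin 2) ℂ →* Matrix.unitaryGroup J ℂ where
  toFun g := ⟨Matrix.blockDiagonal (blk g.1), by
    have h1 : g.1 * (g.1)ᴴ = 1 := Matrix.mem_unitaryGroup_iff.1 g.2
    rw [Matrix.mem_unitaryGroup_iff, Matrix.star_eq_conjTranspose,
      Matrix.blockDiagonal_conjTranspose, ← Matrix.blockDiagonal_mul]
    have h2 : (fun k => blk g.1 k * (blk g.1 k)ᴴ) = 1 := by
      funext k
      rw [← blk_conj, ← blk_mul, h1, blk_one]
      rfl
    rw [h2, Matrix.blockDiagonal_one]⟩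
  map_one' := by
    apply Subtype.ext
    show Matrix.blockDiagonal (blk 1) = 1
    have h2 : blk 1 = 1 := by
      funext k
      rw [blk_one]
      rfl
    rw [h2, Matrix.blockDiagonal_one]
  map_mul' g h := by
    apply Subtype.ext
    show Matrix.blockDiagonal (blk (g.1 * h.1))
      = Matrix.blockDiagonal (blk g.1) * Matrix.blockDiagonal (blk h.1)
    rw [← Matrix.blockDiagonal_mul]
    congr 1
    funext k
    rw [blk_mul]

/-- The group `G ≅ U(2)`. -/
def G0 : Subgroup (Matrix.unitaryGroup J ℂ) := emb.range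

lemma mem_G0 {u : Matrix.unitaryGroup J ℂ} (hu : u ∈ G0) :
    ∃ g : Matrix (Fin 2) (Fin 2) ℂ, g * gᴴ = 1 ∧ u.1 = Matrix.blockDiagonal (blk g) := by
  obtain ⟨p, rfl⟩ := hu
  exact ⟨p.1, Matrix.mem_unitaryGroup_iff.1 p.2, rfl⟩

lemma blk_mulVec (g : Matrix (Fin 2) (Fin 2) ℂ) (z : J → ℂ) (i : Fin 2) (k : Fin 3) :
    (Matrix.blockDiagonal (blk g) *ᵥ z) (i, k) = blk g k i 0 * z (0, k) + blk g k i 1 * z (1, k) := by
  simp only [Matrix.mulVec, dotProduct, Fintype.sum_prod_type, Matrix.blockDiagonal_apply,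
    Fin.sum_univ_two, ite_mul, zero_mul]
  simp

lemma blk_vecMul (g : Matrix (Fin 2) (Fin 2) ℂ) (z : J → ℂ) (i : Fin 2) (k : Fin 3) :
    (z ᵥ* (Matrix.blockDiagonal (blk g))ᴴ) (i, k)
      = z (0, k) * star (blk g k i 0) + z (1, k) * star (blk g k i 1) := by
  simp only [Matrix.vecMul, dotProduct, Fintype.sum_prod_type, Matrix.conjTranspose_apply,
    Matrix.blockDiagonal_apply, Fin.sum_univ_two]
  simp [apply_ite]

/-- The determinant of the first two copies of `ℂ²`. -/
def dA (z : J → ℂ) : ℂ := z (0, 0) * z (1, 1) - z (1, 0) * z (0, 1)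

/-- The minors of the first copy of `ℂ²`. -/
def mm (T : EU J) (a : ℕ × ℕ) : ℂ :=
  T.1 a.1 (0, 0) * T.1 a.2 (1, 0) - T.1 a.1 (1, 0) * T.1 a.2 (0, 0)

lemma dA_act {u : Matrix.unitaryGroup J ℂ} {g : Matrix (Fin 2) (Fin 2) ℂ}
    (hu : u.1 = Matrix.blockDiagonal (blk g)) (z : J → ℂ) : dA (u.1 *ᵥ z) = g.det * dA z := by
  rw [dA, hu, blk_mulVec, blk_mulVec, blk_mulVec, blk_mulVec, dA, Matrix.det_fin_two]
  simp only [blk]
  simp
  ring

lemma mm_act {u : Matrix.unitaryGroup J ℂ} {g : Matrix (Fin 2) (Fin 2) ℂ}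
    (hu : u.1 = Matrix.blockDiagonal (blk g)) (T : EU J) (a : ℕ × ℕ) :
    mm (actE u T) a = star g.det * mm T a := by
  have h1 : ∀ m i, (actE u T).1 m (i, 0) = T.1 m (0, 0) * star (g i 0) + T.1 m (1, 0) * star (g i 1) := by
    intro m i
    show (T.1 m ᵥ* (u.1)ᴴ) (i, 0) = _
    rw [hu, blk_vecMul]
    rfl
  rw [mm, h1, h1, h1, h1, mm, Matrix.det_fin_two]
  simp only [star_sub, star_mul']
  ring

lemma mm_ne_zero (T : EU J) : mm T ≠ 0 := by
  intro h
  have hm : ∀ a b, T.1 a (0, 0) * T.1 b (1, 0) - T.1 a (1, 0) * T.1 b (0, 0) = 0 := fun a b =>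
    congrFun h (a, b)
  by_cases h0 : ∀ b, T.1 b (0, 0) = 0
  · have h1 := T.2 (Pi.single (0, 0) 1) (fun m => by simp [h0])
    have h2 := congrFun h1 (0, 0)
    simp at h2
  · push Not at h0
    obtain ⟨b, hb⟩ := h0
    have h1 := T.2 (Pi.single (0, 0) (T.1 b (1, 0)) + Pi.single (1, 0) (-T.1 b (0, 0))) (fun m => by
      rw [dotProduct_add, dotProduct_single, dotProduct_single]
      linear_combination hm m b)
    have h2 := congrFun h1 (1, 0)
    simp at h2
    exact hb h2

lemma mm_continuous (a : ℕ × ℕ) : Continuous fun T : EU J => mm T a := by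
  have h : ∀ m i, Continuous fun T : EU J => T.1 m i := fun m i =>
    (continuous_apply i).comp ((continuous_apply m).comp continuous_subtype_val)
  exact ((h _ _).mul (h _ _)).sub ((h _ _).mul (h _ _))

lemma det_unit {g : Matrix (Fin 2) (Fin 2) ℂ} (hg : g * gᴴ = 1) : g.det * star g.det = 1 := by
  rw [← Matrix.det_conjTranspose, ← Matrix.det_mul, hg, Matrix.det_one]

/-- The kernel of the line field on the Borel construction. -/
def ker (a b : ℕ × ℕ) : C(Borel G0 (Set.univ : Set (J → ℂ)), ℂ) where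
  toFun := Quot.lift (fun p => mm p.1 a * star (mm p.1 b)) (by
    rintro p q ⟨u, hu, h1, -⟩
    obtain ⟨g, hg, hval⟩ := mem_G0 hu
    show mm p.1 a * star (mm p.1 b) = mm q.1 a * star (mm q.1 b)
    rw [h1, mm_act hval, mm_act hval, star_mul', star_star]
    linear_combination (-(mm p.1 a * star (mm p.1 b))) * det_unit hg)
  continuous_toFun := continuous_quot_lift _
    (((mm_continuous a).comp continuous_fst).mul ((mm_continuous b).comp continuous_fst).star)

lemma ker_spec (y : Borel G0 (Set.univ : Set (J → ℂ))) :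
    ∃ u : ℕ × ℕ → ℂ, u ≠ 0 ∧ ∀ i j, ker i j y = u i * star (u j) := by
  induction y using Quot.ind with
  | mk p => exact ⟨mm p.1, mm_ne_zero p.1, fun _ _ => rfl⟩

/-- A global lift over the part where `dA` does not vanish. -/
def glob (S : Set (J → ℂ)) : C(Borel G0 S, ℕ × ℕ → ℂ) where
  toFun := Quot.lift (fun p => dA p.2 • mm p.1) (by
    rintro p q ⟨u, hu, h1, h2⟩
    obtain ⟨g, hg, hval⟩ := mem_G0 hu
    funext a
    show dA p.2 * mm p.1 a = dA q.2 * mm q.1 a
    rw [h1, h2, mm_act hval, dA_act hval]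
    linear_combination (-(dA p.2 * mm p.1 a)) * det_unit hg)
  continuous_toFun := by
    apply continuous_quot_lift
    apply continuous_pi
    intro a
    have h1 : Continuous fun z : J → ℂ => dA z := by
      unfold dA
      fun_prop
    exact (h1.comp (continuous_subtype_val.comp continuous_snd)).mul
      ((mm_continuous a).comp continuous_fst)

lemma glob_isLift (S : Set (J → ℂ)) (hS : ∀ z ∈ S, dA z ≠ 0) :
    IsLift ker (borelIncl G0 S) (glob S) := by
  intro y
  induction y using Quot.ind with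
  | mk p => exact ⟨mm p.1, dA p.2, hS _ p.2.2, mm_ne_zero p.1, fun _ _ => rfl, rfl⟩

/-- The class `c₁` of the determinant. -/
def c1 : Coh (Borel G0 (Set.univ : Set (J → ℂ))) 2 :=
  Quot.mk _ ⟨chern ker ker_spec, chern_cocycle ker ker_spec⟩

lemma restr_c1_zero (S : Set (J → ℂ)) (hS : ∀ z ∈ S, dA z ≠ 0) :
    restr G0 S 2 c1 = zeroCls _ 2 := by
  apply Quot.sound
  refine ⟨bV ker ker_spec (borelIncl G0 S) (glob S), fun σ => ?_⟩
  have h := chern_comp ker ker_spec (borelIncl G0 S) (glob S) (glob_isLift S hS) σ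
  show chern ker ker_spec (ContinuousMap.comp (borelIncl G0 S) σ) - 0 = _
  rw [sub_zero]
  exact h

lemma cobd_sub {X : Type} [TopologicalSpace X] {k : ℕ} (c c' : Simplex X k → ℚ)
    (σ : Simplex X (k + 1)) : cobd (fun γ => c γ - c' γ) σ = cobd c σ - cobd c' σ := by
  simp only [cobd, mul_sub, Finset.sum_sub_distrib]

lemma exact_of_eq {X : Type} [TopologicalSpace X] {k : ℕ}
    (c c' : {c : Simplex X (k + 1) → ℚ // IsCocycle c})
    (h : (Quot.mk _ c : Coh X (k + 1)) = Quot.mk _ c') : ∃ b, ∀ σ, c.1 σ - c'.1 σ = cobd b σ := by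
  have h1 := Quot.eqvGen_exact h
  clear h
  induction h1 with
  | rel x y h => exact h
  | refl x => exact ⟨fun _ => 0, fun σ => by simp [cobd]⟩
  | symm x y _ ih =>
    obtain ⟨b, hb⟩ := ih
    refine ⟨fun γ => 0 - b γ, fun σ => ?_⟩
    rw [cobd_sub, ← hb]
    have : cobd (fun _ : Simplex X k => (0 : ℚ)) σ = 0 := by simp [cobd]
    rw [this]
    ring
  | trans x y z _ _ ih1 ih2 =>
    obtain ⟨b, hb⟩ := ih1
    obtain ⟨b', hb'⟩ := ih2
    refine ⟨fun γ => b γ + b' γ, fun σ => ?_⟩
    rw [cobd_add, ← hb, ← hb']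
    ring


/-! A sphere in the Borel construction of the locally free locus on which `c₁` does not vanish. -/

/-- The points `(F e₁, q e₁, e₂)`. -/
def xx (F q : ℂ) (a : J) : ℂ :=
  if a.1 = 0 then (if a.2 = 0 then F else if a.2 = 1 then q else 0)
    else (if a.2 = 2 then 1 else 0)

/-- A family of matrices with linearly independent columns. -/
def tt (F q : ℂ) (m : ℕ) (a : J) : ℂ :=
  if a.1 = 0 then (if m = 3 * (a.2 : ℕ) then (if a.2 = 2 then F else star F)
    else if m = 3 * (a.2 : ℕ) + 1 then q else 0)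
    else (if m = 3 * (a.2 : ℕ) + 2 then 1 else 0)

lemma tt_inj (F q : ℂ) (h : F ≠ 0 ∨ q ≠ 0) (v : J → ℂ) (hv : ∀ m, tt F q m ⬝ᵥ v = 0) : v = 0 := by
  have r0 := hv 0
  have r1 := hv 1
  have r2 := hv 2
  have r3 := hv 3
  have r4 := hv 4
  have r5 := hv 5
  have r6 := hv 6
  have r7 := hv 7
  have r8 := hv 8
  simp [tt, dotProduct, Fintype.sum_prod_type, Fin.sum_univ_two, Fin.sum_univ_three]
    at r0 r1 r2 r3 r4 r5 r6 r7 r8
  have hk : ∀ z : ℂ, (F = 0 ∨ z = 0) → (q = 0 ∨ z = 0) → z = 0 := by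
    intro z h1 h2
    rcases h1 with h1 | h1
    · rcases h2 with h2 | h2
      · rcases h with h | h
        · exact absurd h1 h
        · exact absurd h2 h
      · exact h2
    · exact h1
  funext a
  obtain ⟨i, k⟩ := a
  fin_cases i <;> fin_cases k
  · exact hk _ r0 r1
  · exact hk _ r3 r4
  · exact hk _ r6 r7
  · exact r2
  · exact r5
  · exact r8

/-- The corresponding points of `EU`. -/
def TT (F q : ℂ) (h : F ≠ 0 ∨ q ≠ 0) : EU J := ⟨tt F q, fun v hv => tt_inj F q h v hv⟩

/-- `diag (w, 1)`. -/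
def uw (w : ℂ) (hw : w * star w = 1) : Matrix.unitaryGroup (Fin 2) ℂ :=
  ⟨!![w, 0; 0, 1], by
    rw [Matrix.mem_unitaryGroup_iff, Matrix.star_eq_conjTranspose]
    ext i j
    fin_cases i <;> fin_cases j <;>
      simp [Matrix.mul_apply, Fin.sum_univ_two, Matrix.conjTranspose_apply] 
    exact hw⟩

lemma xx_act (w : ℂ) (hw : w * star w = 1) : xx w 0 = (emb (uw w hw)).1 *ᵥ xx 1 0 := by
  funext a
  obtain ⟨i, k⟩ := a
  show xx w 0 (i, k) = (Matrix.blockDiagonal (blk !![w, 0; 0, 1]) *ᵥ xx 1 0) (i, k)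
  rw [blk_mulVec]
  fin_cases i <;> fin_cases k <;> simp [xx, blk]

lemma TT_act (w : ℂ) (hw : w * star w = 1) (h : w ≠ 0 ∨ (0 : ℂ) ≠ 0) (h1 : (1 : ℂ) ≠ 0 ∨ (0 : ℂ) ≠ 0) :
    TT w 0 h = actE (emb (uw w hw)) (TT 1 0 h1) := by
  apply Subtype.ext
  funext m a
  obtain ⟨i, k⟩ := a
  show tt w 0 m (i, k) = (tt 1 0 m ᵥ* (Matrix.blockDiagonal (blk !![w, 0; 0, 1]))ᴴ) (i, k)
  rw [blk_vecMul]
  fin_cases i <;> fin_cases k <;> simp [tt, blk]

lemma xx_mem (F q : ℂ) (h : F ≠ 0 ∨ q ≠ 0) : xx F q ∈ locFree G0 := by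
  apply (Set.finite_singleton (1 : Matrix.unitaryGroup J ℂ)).subset
  rintro u ⟨hu, hfix⟩
  obtain ⟨g, hg, hval⟩ := mem_G0 hu
  have hc : ∀ i k, blk g k i 0 * xx F q (0, k) + blk g k i 1 * xx F q (1, k) = xx F q (i, k) := by
    intro i k
    rw [← blk_mulVec, ← hval, hfix]
  have e1 := hc 0 2
  have e2 := hc 1 2
  have e3 := hc 0 0
  have e4 := hc 1 0
  have e5 := hc 0 1
  have e6 := hc 1 1
  simp [xx, blk] at e1 e2 e3 e4 e5 e6
  have g00 : g 0 0 = 1 := by
    rcases h with h | h
    · exact mul_right_cancel₀ h (e3.trans (one_mul F).symm)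
    · exact mul_right_cancel₀ h (e5.trans (one_mul q).symm)
  have g10 : g 1 0 = 0 := by
    rcases h with h | h
    · exact e4.resolve_right h
    · exact e6.resolve_right h
  have hg1 : g = 1 := by
    ext i j
    fin_cases i <;> fin_cases j
    · exact g00
    · exact e1
    · exact g10
    · have := congrArg star e2
      simpa using this
  rw [Set.mem_singleton_iff]
  apply Subtype.ext
  rw [hval, hg1]
  have h2 : blk 1 = 1 := by
    funext k
    rw [blk_one]
    rfl
  rw [h2, Matrix.blockDiagonal_one]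
  rfl

/-- The function `(1 - r) e^{2 π i s} + r`. -/
def FF (p : ℝ × ℝ) : ℂ := (1 - p.2) * Complex.exp (2 * Real.pi * Complex.I * p.1) + p.2

/-- The function `r (1 - r) s (1 - s)`. -/
def qq (p : ℝ × ℝ) : ℂ := p.2 * (1 - p.2) * (p.1 * (1 - p.1))

lemma FF_qq (p : ℝ × ℝ) : FF p ≠ 0 ∨ qq p ≠ 0 := by
  by_contra hcon
  push Not at hcon
  obtain ⟨h1, h2⟩ := hcon
  obtain ⟨s, r⟩ := p
  simp only [FF] at h1
  simp only [qq] at h2
  norm_cast at h2
  have hE : ‖Complex.exp (2 * Real.pi * Complex.I * s)‖ = 1 := by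
    rw [show 2 * Real.pi * Complex.I * s = ((2 * Real.pi * s : ℝ) : ℂ) * Complex.I by
      push_cast; ring]
    exact Complex.norm_exp_ofReal_mul_I _
  have h3 : (1 - (r : ℂ)) * Complex.exp (2 * Real.pi * Complex.I * s) = -r := by
    linear_combination h1
  have h4 : |1 - r| = |r| := by
    have := congrArg norm h3
    rw [norm_mul, hE, mul_one, norm_neg] at this
    rw [← Complex.ofReal_one, ← Complex.ofReal_sub, Complex.norm_real, Complex.norm_real] at this
    exact this
  have hr : r = 1 / 2 := by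
    rcases abs_eq_abs.1 h4 with h | h <;> linarith
  subst hr
  have h5 : Complex.exp (2 * Real.pi * Complex.I * s) = -1 := by
    push_cast at h3
    linear_combination 2 * h3
  have h6 : s = 0 ∨ s = 1 := by
    have : s * (1 - s) = 0 := by
      have h7 : (1 / 2 : ℝ) * (1 - 1 / 2) ≠ 0 := by norm_num
      exact (mul_eq_zero.1 h2).resolve_left h7
    rcases mul_eq_zero.1 this with h | h
    · left; exact h
    · right; linarith
  rcases h6 with h | h
  · rw [h] at h5
    norm_num at h5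
  · rw [h] at h5
    have : Complex.exp (2 * Real.pi * Complex.I * ((1 : ℝ) : ℂ)) = 1 := by
      rw [Complex.ofReal_one, mul_one]
      exact Complex.exp_two_pi_mul_I
    rw [this] at h5
    norm_num at h5

lemma FF_continuous : Continuous FF := by
  unfold FF
  fun_prop

lemma qq_continuous : Continuous qq := by
  unfold qq
  fun_prop

lemma TT_continuous : Continuous fun p : ℝ × ℝ => TT (FF p) (qq p) (FF_qq p) := by
  apply Continuous.subtype_mk
  apply continuous_pi
  intro m
  apply continuous_pi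
  intro a
  have h1 := FF_continuous
  have h2 := qq_continuous
  have h3 : Continuous fun p => star (FF p) := h1.star
  show Continuous fun p => tt (FF p) (qq p) m a
  unfold tt
  split_ifs <;> fun_prop

lemma xx_continuous : Continuous fun p : ℝ × ℝ => xx (FF p) (qq p) := by
  apply continuous_pi
  intro a
  have h1 := FF_continuous
  have h2 := qq_continuous
  show Continuous fun p => xx (FF p) (qq p) a
  unfold xx
  split_ifs <;> fun_prop

/-- The square in the Borel construction of the locally free locus. -/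
def sq : C(ℝ × ℝ, Borel G0 (locFree G0)) :=
  ⟨fun p => Quot.mk _ (TT (FF p) (qq p) (FF_qq p), ⟨xx (FF p) (qq p), xx_mem _ _ (FF_qq p)⟩),
    continuous_quot_mk.comp (TT_continuous.prodMk (xx_continuous.subtype_mk _))⟩

/-- Its lift. -/
def sqV : C(ℝ × ℝ, ℕ × ℕ → ℂ) :=
  ⟨fun p => mm (TT (FF p) (qq p) (FF_qq p)),
    continuous_pi fun a => (mm_continuous a).comp TT_continuous⟩

lemma sqV_lift : IsLift ker ((borelIncl G0 (locFree G0)).comp sq) sqV := by
  intro p
  exact ⟨mm (TT (FF p) (qq p) (FF_qq p)), 1, one_ne_zero, mm_ne_zero _, fun _ _ => rfl,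
    (one_smul _ _).symm⟩

lemma bdry (p : ℝ × ℝ) (w : ℂ) (hw : w * star w = 1) (hF : FF p = w) (hq : qq p = 0) :
    sq p = sq (0, 0) ∧ sqV p = star w • sqV (0, 0) := by
  have hF0 : FF (0, 0) = 1 := by simp [FF]
  have hq0 : qq (0, 0) = 0 := by simp [qq]
  have hT : TT (FF p) (qq p) (FF_qq p)
      = actE (emb (uw w hw)) (TT (FF (0, 0)) (qq (0, 0)) (FF_qq (0, 0))) := by
    have a1 : TT (FF p) (qq p) (FF_qq p) = TT w 0 (by
        have h0 := FF_qq p
        rw [hF, hq] at h0
        exact h0) := by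
      apply Subtype.ext
      show tt (FF p) (qq p) = tt w 0
      rw [hF, hq]
    have a2 : TT (FF (0, 0)) (qq (0, 0)) (FF_qq (0, 0)) = TT 1 0 (Or.inl one_ne_zero) := by
      apply Subtype.ext
      show tt (FF (0, 0)) (qq (0, 0)) = tt 1 0
      rw [hF0, hq0]
    rw [a1, a2]
    exact TT_act w hw _ _
  have hx : xx (FF p) (qq p) = (emb (uw w hw)).1 *ᵥ xx (FF (0, 0)) (qq (0, 0)) := by
    rw [hF, hq, hF0, hq0]
    exact xx_act w hw
  constructor
  · apply Eq.symm
    apply Quot.sound
    exact ⟨emb (uw w hw), ⟨_, rfl⟩, hT, hx⟩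
  · funext a
    show mm (TT (FF p) (qq p) (FF_qq p)) a
      = star w * mm (TT (FF (0, 0)) (qq (0, 0)) (FF_qq (0, 0))) a
    rw [hT, mm_act (g := !![w, 0; 0, 1]) rfl]
    congr 2
    rw [Matrix.det_fin_two_of]
    ring

lemma star_exp (s : ℝ) : star (Complex.exp (2 * Real.pi * Complex.I * s))
    = Complex.exp (((-1 : ℤ) : ℂ) * (2 * Real.pi * Complex.I) * s) := by
  rw [Complex.star_def, ← Complex.exp_conj]
  congr 1
  simp only [map_mul, Complex.conj_I, Complex.conj_ofReal, map_ofNat]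
  push_cast
  ring

lemma exp_unit (s : ℝ) : Complex.exp (2 * Real.pi * Complex.I * s)
    * star (Complex.exp (2 * Real.pi * Complex.I * s)) = 1 := by
  rw [star_exp, ← Complex.exp_add]
  rw [← Complex.exp_zero]
  congr 1
  push_cast
  ring

lemma c1_ne : restr G0 (locFree G0) 2 c1 ≠ zeroCls _ 2 := by
  intro hz
  obtain ⟨b, hb⟩ := exact_of_eq (k := 1) _ _ hz
  have h1 : ∀ p : ℝ × ℝ, (FF p = 1) → qq p = 0 → sq p = sq (0, 0) ∧ sqV p = sqV (0, 0) := by
    intro p hF hq
    have := bdry p 1 (by simp) hF hq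
    rwa [star_one, one_smul] at this
  have e1 : Complex.exp (2 * Real.pi * Complex.I * ((1 : ℝ) : ℂ)) = 1 := by
    rw [Complex.ofReal_one, mul_one]
    exact Complex.exp_two_pi_mul_I
  have hR : ∀ r : ℝ, FF (1, r) = 1 ∧ qq (1, r) = 0 := by
    intro r
    constructor
    · simp only [FF]
      rw [e1]
      ring
    · simp [qq]
  have hL : ∀ r : ℝ, FF (0, r) = 1 ∧ qq (0, r) = 0 := by
    intro r
    constructor
    · simp [FF]
    · simp [qq]
  have hT : ∀ s : ℝ, FF (s, 1) = 1 ∧ qq (s, 1) = 0 := by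
    intro s
    constructor
    · simp [FF]
    · simp [qq]
  have hB : ∀ s : ℝ, FF (s, 0) = Complex.exp (2 * Real.pi * Complex.I * s) ∧ qq (s, 0) = 0 := by
    intro s
    constructor
    · simp [FF]
    · simp [qq]
  have hbot : ∀ s : ℝ, sq (s, 0) = sq (0, 0) ∧ sqV (s, 0)
      = Complex.exp (((-1 : ℤ) : ℂ) * (2 * Real.pi * Complex.I) * s) • sqV (0, 0) := by
    intro s
    have := bdry (s, 0) _ (exp_unit s) (hB s).1 (hB s).2
    rwa [star_exp] at this
  have := winding_zero ker ker_spec (borelIncl G0 (locFree G0)) b (fun σ => by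
      have := hb σ
      rw [← this]
      show _ = _ - 0
      rw [sub_zero]) sq sqV sqV_lift (sq (0, 0)) (sqV (0, 0)) (-1)
    (fun r => (h1 _ (hR r).1 (hR r).2).1) (fun s => (hbot s).1)
    (fun s => (h1 _ (hT s).1 (hT s).2).1) (fun r => (h1 _ (hL r).1 (hL r).2).1)
    (fun r => (h1 _ (hR r).1 (hR r).2).2) (fun s => (hbot s).2)
    (fun s => (h1 _ (hT s).1 (hT s).2).2) (fun r => (h1 _ (hL r).1 (hL r).2).2)
  norm_num at this


/-! The Lie algebra of `G0`. -/

lemma lieAlg_skew (G : Subgroup (Matrix.unitaryGroup ι ℂ)) {X : Matrix ι ι ℂ}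
    (hX : X ∈ lieAlg G) : ∀ i j, star (X j i) = -X i j := by
  obtain ⟨γ, h1, h2, h3⟩ := hX
  have h0 : ∀ i j, (γ 0).1 i j = (1 : Matrix ι ι ℂ) i j := by
    intro i j
    rw [h2]
    rfl
  intro i j
  have hu : (fun s => ∑ k, (γ s).1 i k * star ((γ s).1 j k)) = fun _ => (1 : Matrix ι ι ℂ) i j := by
    funext s
    have := Matrix.mem_unitaryGroup_iff.1 (γ s).2
    have := congrFun (congrFun this i) j
    rw [Matrix.mul_apply] at this
    exact this
  have hconj : ∀ k, HasDerivAt (fun s => star ((γ s).1 j k)) (star (X j k)) 0 := by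
    intro k
    exact (h3 j k).star
  have hd : HasDerivAt (fun s => ∑ k, (γ s).1 i k * star ((γ s).1 j k))
      (∑ k, (X i k * star ((γ 0).1 j k) + (γ 0).1 i k * star (X j k))) 0 :=
    HasDerivAt.fun_sum fun k _ => (h3 i k).fun_mul (hconj k)
  rw [hu] at hd
  have h4 := (hasDerivAt_const (0 : ℝ) ((1 : Matrix ι ι ℂ) i j)).unique hd
  have h5 : ∑ k, (X i k * star ((γ 0).1 j k) + (γ 0).1 i k * star (X j k))
      = X i j + star (X j i) := by
    rw [Finset.sum_add_distrib]
    congr 1
    · rw [Finset.sum_eq_single j]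
      · rw [h0, Matrix.one_apply_eq]
        simp
      · intro k _ hk
        rw [h0, Matrix.one_apply_ne hk.symm]
        simp
      · intro h
        exact absurd (Finset.mem_univ j) h
    · rw [Finset.sum_eq_single i]
      · rw [h0, Matrix.one_apply_eq]
        simp
      · intro k _ hk
        rw [h0, Matrix.one_apply_ne hk.symm]
        simp
      · intro h
        exact absurd (Finset.mem_univ i) h
  rw [h5] at h4
  linear_combination -h4

/-- Relations satisfied by all elements of the Lie algebra of `G0`. -/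
lemma lieAlg_rel {X : Matrix J J ℂ} (hX : X ∈ lieAlg G0) :
    (∀ i j k k', k ≠ k' → X (i, k) (j, k') = 0) ∧
    (∀ i j, X (i, 1) (j, 1) = X (i, 0) (j, 0)) ∧
    (∀ i j, X (i, 2) (j, 2) = star (X (i, 0) (j, 0))) := by
  obtain ⟨γ, h1, h2, h3⟩ := hX
  refine ⟨?_, ?_, ?_⟩
  · intro i j k k' hk
    have hd := h3 (i, k) (j, k')
    have : (fun s => (γ s).1 (i, k) (j, k')) = fun _ => 0 := by
      funext s
      obtain ⟨g, -, hu⟩ := mem_G0 (h1 s)
      rw [hu, Matrix.blockDiagonal_apply]
      simp [hk]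
    rw [this] at hd
    exact hd.unique (hasDerivAt_const _ _)
  · intro i j
    have hd := h3 (i, 1) (j, 1)
    have hd' := h3 (i, 0) (j, 0)
    have : (fun s => (γ s).1 (i, 1) (j, 1)) = fun s => (γ s).1 (i, 0) (j, 0) := by
      funext s
      obtain ⟨g, -, hu⟩ := mem_G0 (h1 s)
      rw [hu, Matrix.blockDiagonal_apply, Matrix.blockDiagonal_apply]
      simp [blk]
    rw [this] at hd
    exact hd.unique hd'
  · intro i j
    have hd := h3 (i, 2) (j, 2)
    have hd' := (h3 (i, 0) (j, 0)).star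
    have : (fun s => (γ s).1 (i, 2) (j, 2)) = fun s => star ((γ s).1 (i, 0) (j, 0)) := by
      funext s
      obtain ⟨g, -, hu⟩ := mem_G0 (h1 s)
      rw [hu, Matrix.blockDiagonal_apply, Matrix.blockDiagonal_apply]
      simp [blk]
    rw [this] at hd
    exact hd.unique hd'

/-- The matrix of the Lie algebra with block `Y`. -/
def lieM (Y : Matrix (Fin 2) (Fin 2) ℂ) : Matrix J J ℂ := Matrix.blockDiagonal (blk Y)

lemma lieM_mem (M : ℝ → Matrix.unitaryGroup (Fin 2) ℂ) (h0 : M 0 = 1)
    (Y : Matrix (Fin 2) (Fin 2) ℂ) (hY : ∀ i j, HasDerivAt (fun s => (M s).1 i j) (Y i j) 0) :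
    lieM Y ∈ lieAlg G0 := by
  refine ⟨fun s => emb (M s), fun s => ⟨_, rfl⟩, by simp [h0], ?_⟩
  rintro ⟨i, k⟩ ⟨j, k'⟩
  show HasDerivAt (fun s => Matrix.blockDiagonal (blk (M s).1) (i, k) (j, k'))
    (Matrix.blockDiagonal (blk Y) (i, k) (j, k')) 0
  simp only [Matrix.blockDiagonal_apply]
  split_ifs
  · unfold blk
    split_ifs
    · exact (hY i j).star
    · exact hY i j
  · exact hasDerivAt_const _ _

/-- The element of `U(2)` with first row `(α, β)` and determinant one, times `t`. -/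
def su (t α β : ℂ) (h : α * star α + β * star β = 1) (ht : t * star t = 1) :
    Matrix.unitaryGroup (Fin 2) ℂ :=
  ⟨!![t * α, t * β; -(t * star β), t * star α], by
    rw [Matrix.mem_unitaryGroup_iff, Matrix.star_eq_conjTranspose]
    simp only [Complex.star_def] at h ht
    ext i j
    fin_cases i <;> fin_cases j <;>
      simp [Matrix.mul_apply, Fin.sum_univ_two, Matrix.conjTranspose_apply]
    · linear_combination (t * (starRingEnd ℂ) t) * h + ht
    · ring
    · ring
    · linear_combination (t * (starRingEnd ℂ) t) * h + ht⟩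

lemma su_one (h : (1 : ℂ) * star 1 + 0 * star 0 = 1) (ht : (1 : ℂ) * star 1 = 1) :
    su 1 1 0 h ht = 1 := by
  apply Subtype.ext
  show !![(1 : ℂ) * 1, 1 * 0; -(1 * star 0), 1 * star 1] = 1
  ext i j
  fin_cases i <;> fin_cases j <;> simp

lemma hasDerivAt_cexp : HasDerivAt (fun s : ℝ => Complex.exp (s * Complex.I)) Complex.I 0 := by
  have := ((Complex.ofRealCLM.hasDerivAt (x := (0 : ℝ))).mul_const Complex.I).cexp
  simpa using this

lemma hasDerivAt_cos : HasDerivAt (fun s : ℝ => (Real.cos s : ℂ)) 0 0 := by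
  have := (Real.hasDerivAt_cos 0).ofReal_comp
  simpa using this

lemma hasDerivAt_sin : HasDerivAt (fun s : ℝ => (Real.sin s : ℂ)) 1 0 := by
  have := (Real.hasDerivAt_sin 0).ofReal_comp
  simpa using this

lemma exp_unit' (s : ℝ) : Complex.exp (s * Complex.I) * star (Complex.exp (s * Complex.I)) = 1 := by
  rw [Complex.star_def, Complex.mul_conj, Complex.normSq_eq_norm_sq,
    Complex.norm_exp_ofReal_mul_I]
  simp

lemma mem_I : lieM !![Complex.I, 0; 0, Complex.I] ∈ lieAlg G0 := by
  apply lieM_mem (fun s => su (Complex.exp (s * Complex.I)) 1 0 (by simp) (exp_unit' s))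
  · rw [← su_one (by simp) (by simp)]
    congr 1
    simp
  · intro i j
    have h := hasDerivAt_cexp
    fin_cases i <;> fin_cases j
    · simpa [su] using h
    · simpa [su] using hasDerivAt_const (0 : ℝ) (0 : ℂ)
    · simpa [su] using hasDerivAt_const (0 : ℝ) (0 : ℂ)
    · simpa [su] using h

lemma mem_D : lieM !![Complex.I, 0; 0, -Complex.I] ∈ lieAlg G0 := by
  apply lieM_mem (fun s => su 1 (Complex.exp (s * Complex.I)) 0 (by
    rw [exp_unit']
    simp) (by simp))
  · rw [← su_one (by simp) (by simp)]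
    congr 1
    simp
  · intro i j
    have h := hasDerivAt_cexp
    fin_cases i <;> fin_cases j
    · simpa [su] using h
    · simpa [su] using hasDerivAt_const (0 : ℝ) (0 : ℂ)
    · simpa [su] using hasDerivAt_const (0 : ℝ) (0 : ℂ)
    · have h2 := (Complex.conjCLE.toContinuousLinearMap.hasFDerivAt.comp_hasDerivAt (0 : ℝ) h)
      simpa [su, Function.comp_def] using h2

lemma mem_R : lieM !![(0 : ℂ), 1; -1, 0] ∈ lieAlg G0 := by
  have hs : ∀ s : ℝ, (Real.cos s : ℂ) * star (Real.cos s : ℂ) + (Real.sin s : ℂ) * star (Real.sin s : ℂ) = 1 := by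
    intro s
    rw [Complex.star_def, Complex.conj_ofReal, Complex.conj_ofReal]
    norm_cast
    nlinarith [Real.cos_sq_add_sin_sq s]
  apply lieM_mem (fun s => su 1 (Real.cos s) (Real.sin s) (hs s) (by simp))
  · rw [← su_one (by simp) (by simp)]
    congr 1 <;> simp
  · intro i j
    fin_cases i <;> fin_cases j
    · simpa [su] using hasDerivAt_cos
    · simpa [su] using hasDerivAt_sin
    · simpa [su, ← Complex.ofReal_sin, Complex.conj_ofReal, -Complex.ofReal_sin] using hasDerivAt_sin.fun_neg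
    · simpa [su, ← Complex.ofReal_cos, Complex.conj_ofReal, -Complex.ofReal_cos] using hasDerivAt_cos

lemma mem_S : lieM !![(0 : ℂ), Complex.I; Complex.I, 0] ∈ lieAlg G0 := by
  have hs : ∀ s : ℝ, (Real.cos s : ℂ) * star (Real.cos s : ℂ)
      + (Real.sin s * Complex.I : ℂ) * star (Real.sin s * Complex.I : ℂ) = 1 := by
    intro s
    have h1 : star (Real.sin s * Complex.I : ℂ) = - (Real.sin s * Complex.I) := by
      rw [Complex.star_def, map_mul, Complex.conj_ofReal, Complex.conj_I]
      ring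
    rw [h1, Complex.star_def, Complex.conj_ofReal]
    have h2 : (Real.cos s : ℂ) ^ 2 + (Real.sin s : ℂ) ^ 2 = 1 := by
      norm_cast
      exact Real.cos_sq_add_sin_sq s
    linear_combination h2 - (Real.sin s : ℂ) ^ 2 * Complex.I_sq
  apply lieM_mem (fun s => su 1 (Real.cos s) (Real.sin s * Complex.I) (hs s) (by simp))
  · rw [← su_one (by simp) (by simp)]
    congr 1 <;> simp
  · intro i j
    fin_cases i <;> fin_cases j
    · simpa [su] using hasDerivAt_cos
    · simpa [su] using hasDerivAt_sin.mul_const Complex.I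
    · simpa [su, ← Complex.ofReal_sin, Complex.conj_ofReal, -Complex.ofReal_sin] using hasDerivAt_sin.mul_const Complex.I
    · simpa [su, ← Complex.ofReal_cos, Complex.conj_ofReal, -Complex.ofReal_cos] using hasDerivAt_cos


/-! Moment map computations. -/

lemma lieAlg_eq {X : Matrix J J ℂ} (hX : X ∈ lieAlg G0) :
    X = lieM (Matrix.of fun i j => X (i, 0) (j, 0)) := by
  obtain ⟨h1, h2, h3⟩ := lieAlg_rel hX
  ext ⟨i, k⟩ ⟨j, k'⟩
  rw [lieM, Matrix.blockDiagonal_apply]
  by_cases hk : k = k'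
  · subst hk
    rw [if_pos rfl]
    fin_cases k
    · simp [blk]
    · simp only [blk]
      simpa using h2 i j
    · simp only [blk]
      simpa using h3 i j
  · rw [if_neg hk]
    exact h1 i j k k' hk

/-- The hermitian form of a point, diagonal entries. -/
def hh (z : J → ℂ) (i : Fin 2) : ℝ :=
  Complex.normSq (z (i, 0)) + Complex.normSq (z (i, 1)) - Complex.normSq (z (i, 2))

/-- The hermitian form of a point, off-diagonal entry. -/
def ww (z : J → ℂ) : ℂ :=
  z (0, 0) * star (z (1, 0)) + z (0, 1) * star (z (1, 1)) - star (z (0, 2)) * z (1, 2)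

lemma moment_formula (y0 y1 : ℝ) (β : ℂ) (z : J → ℂ) :
    moment (lieM !![Complex.I * y0, β; -star β, Complex.I * y1]) z
      = -(y0 * hh z 0 + y1 * hh z 1) / 2 - (β * star (ww z)).im := by
  have h1 : star z ⬝ᵥ (lieM !![Complex.I * y0, β; -star β, Complex.I * y1] *ᵥ z)
      = Complex.I * ((y0 * hh z 0 + y1 * hh z 1 : ℝ) : ℂ)
        + (β * star (ww z) - star (β * star (ww z))) := by
    rw [dotProduct, Fintype.sum_prod_type]
    simp only [Pi.star_apply, lieM, blk_mulVec, Fin.sum_univ_two, Fin.sum_univ_three, hh, ww]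
    push_cast
    simp only [← Complex.mul_conj, blk]
    simp
    ring
  rw [moment, h1]
  generalize β * star (ww z) = y
  simp [Complex.mul_re]
  ring

lemma skew_form {X : Matrix J J ℂ} (hX : X ∈ lieAlg G0) : ∃ (y0 y1 : ℝ) (β : ℂ),
    X = lieM !![Complex.I * y0, β; -star β, Complex.I * y1] ∧
    y0 = (X (0, 0) (0, 0)).im ∧ y1 = (X (1, 0) (1, 0)).im := by
  have hs := lieAlg_skew G0 hX
  refine ⟨(X (0, 0) (0, 0)).im, (X (1, 0) (1, 0)).im, X (0, 0) (1, 0), ?_, rfl, rfl⟩
  have hre : ∀ a, (X a a).re = 0 := by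
    intro a
    have := congrArg Complex.re (hs a a)
    simp at this
    linarith
  rw [lieAlg_eq hX]
  congr 1
  ext i j
  fin_cases i <;> fin_cases j
  · apply Complex.ext
    · simp [lieM, Matrix.blockDiagonal_apply, blk, hre]
    · simp [lieM, Matrix.blockDiagonal_apply, blk]
  · simp [lieM, Matrix.blockDiagonal_apply, blk]
  · have := hs (1, 0) (0, 0)
    simp only [lieM, Matrix.blockDiagonal_apply, blk]
    simp
    have h2 : X (1, 0) (0, 0) = -star (X (0, 0) (1, 0)) := by rw [this, neg_neg]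
    rw [h2, Complex.star_def]
  · apply Complex.ext
    · simp [lieM, Matrix.blockDiagonal_apply, blk, hre]
    · simp [lieM, Matrix.blockDiagonal_apply, blk]

lemma mom_I (z : J → ℂ) : moment (lieM !![Complex.I, 0; 0, Complex.I]) z
    = -(hh z 0 + hh z 1) / 2 := by
  have := moment_formula 1 1 0 z
  simpa using this

lemma mom_D (z : J → ℂ) : moment (lieM !![Complex.I, 0; 0, -Complex.I]) z
    = -(hh z 0 - hh z 1) / 2 := by
  have := moment_formula 1 (-1) 0 z
  simp at this
  rw [this]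
  ring

lemma mom_R (z : J → ℂ) : moment (lieM !![(0 : ℂ), 1; -1, 0]) z = (ww z).im := by
  have := moment_formula 0 0 1 z
  simpa using this

lemma mom_S (z : J → ℂ) : moment (lieM !![(0 : ℂ), Complex.I; Complex.I, 0]) z = -(ww z).re := by
  have := moment_formula 0 0 Complex.I z
  simpa using this

lemma conj_lieM (g : Matrix.unitaryGroup (Fin 2) ℂ) (Y : Matrix (Fin 2) (Fin 2) ℂ) :
    (emb g).1 * lieM Y * ((emb g)⁻¹).1 = lieM (g.1 * Y * (g.1)ᴴ) := by
  show Matrix.blockDiagonal (blk g.1) * Matrix.blockDiagonal (blk Y)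
    * (Matrix.blockDiagonal (blk g.1))ᴴ = Matrix.blockDiagonal (blk (g.1 * Y * (g.1)ᴴ))
  rw [Matrix.blockDiagonal_conjTranspose, ← Matrix.blockDiagonal_mul, ← Matrix.blockDiagonal_mul]
  congr 1
  funext k
  rw [blk_mul, blk_mul, blk_conj]

lemma lieM_neg (Y : Matrix (Fin 2) (Fin 2) ℂ) : lieM (-Y) = (-1 : ℝ) • lieM Y := by
  ext ⟨i, k⟩ ⟨j, k'⟩
  simp only [lieM, Matrix.smul_apply, Matrix.blockDiagonal_apply]
  split_ifs
  · unfold blk
    split_ifs
    · simp
    · simp
  · simp

lemma central_zero {α : Matrix J J ℂ → ℝ} (hα : IsCentral G0 α) {Y : Matrix (Fin 2) (Fin 2) ℂ}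
    (hY : lieM Y ∈ lieAlg G0) (g : Matrix.unitaryGroup (Fin 2) ℂ)
    (hg : g.1 * Y * (g.1)ᴴ = -Y) : α (lieM Y) = 0 := by
  have h1 := hα.2 (emb g) ⟨g, rfl⟩ _ hY
  rw [conj_lieM, hg, lieM_neg] at h1
  have h2 := hα.1 _ hY _ hY (-1) 0
  rw [zero_smul, add_zero, zero_mul, add_zero, h1] at h2
  linarith

/-- The consequences of centrality on a level set. -/
lemma level_eqs {α : Matrix J J ℂ → ℝ} (hα : IsCentral G0 α) {z : J → ℂ} (hz : z ∈ level G0 α) :
    hh z 0 = hh z 1 ∧ ww z = 0 := by
  have hD : α (lieM !![Complex.I, 0; 0, -Complex.I]) = 0 := by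
    apply central_zero hα mem_D (su 1 0 1 (by simp) (by simp))
    ext i j
    fin_cases i <;> fin_cases j <;>
      simp [su, Matrix.mul_apply, Fin.sum_univ_two, Matrix.conjTranspose_apply]
  have hS : α (lieM !![(0 : ℂ), Complex.I; Complex.I, 0]) = 0 := by
    apply central_zero hα mem_S (su 1 0 1 (by simp) (by simp))
    ext i j
    fin_cases i <;> fin_cases j <;>
      simp [su, Matrix.mul_apply, Fin.sum_univ_two, Matrix.conjTranspose_apply]
  have hR : α (lieM !![(0 : ℂ), 1; -1, 0]) = 0 := by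
    apply central_zero hα mem_R (su 1 Complex.I 0 (by simp) (by simp))
    ext i j
    fin_cases i <;> fin_cases j <;>
      simp [su, Matrix.mul_apply, Fin.sum_univ_two, Matrix.conjTranspose_apply]
  have e1 := hz _ mem_D
  have e2 := hz _ mem_R
  have e3 := hz _ mem_S
  rw [hD, mom_D] at e1
  rw [hR, mom_R] at e2
  rw [hS, mom_S] at e3
  refine ⟨by linarith, Complex.ext ?_ e2⟩
  show (ww z).re = 0
  linarith

/-- `|dA|² = s² + s |v₃|²` where `s` is the scalar of the hermitian form. -/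
lemma normSq_dA {z : J → ℂ} (h1 : hh z 0 = hh z 1) (h2 : ww z = 0) :
    Complex.normSq (dA z) = hh z 0 ^ 2
      + hh z 0 * (Complex.normSq (z (0, 2)) + Complex.normSq (z (1, 2))) := by
  have h3 : z (0, 0) * star (z (1, 0)) + z (0, 1) * star (z (1, 1))
      = star (z (0, 2)) * z (1, 2) := by
    have : z (0, 0) * star (z (1, 0)) + z (0, 1) * star (z (1, 1))
      - star (z (0, 2)) * z (1, 2) = 0 := h2
    linear_combination this
  have h4 := congrArg star h3
  simp only [star_add, star_mul', star_star] at h4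
  have h5 : hh z 0 + Complex.normSq (z (0, 2)) = Complex.normSq (z (0, 0))
      + Complex.normSq (z (0, 1)) := by
    simp only [hh]
    ring
  have h6 : hh z 0 + Complex.normSq (z (1, 2)) = Complex.normSq (z (1, 0))
      + Complex.normSq (z (1, 1)) := by
    rw [h1]
    simp only [hh]
    ring
  have h7 : (Complex.normSq (dA z) : ℂ)
      = ((hh z 0 + Complex.normSq (z (0, 2))) * (hh z 0 + Complex.normSq (z (1, 2)))
        - Complex.normSq (z (0, 2)) * Complex.normSq (z (1, 2)) : ℝ) := by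
    rw [h5, h6]
    push_cast
    simp only [← Complex.mul_conj, dA, map_sub, map_mul]
    simp only [Complex.star_def] at h3 h4
    linear_combination (-((starRingEnd ℂ) (z (0, 0)) * z (1, 0)
      + (starRingEnd ℂ) (z (0, 1)) * z (1, 1))) * h3
      - ((starRingEnd ℂ) (z (0, 2)) * z (1, 2)) * h4
  have h8 : Complex.normSq (dA z)
      = (hh z 0 + Complex.normSq (z (0, 2))) * (hh z 0 + Complex.normSq (z (1, 2)))
        - Complex.normSq (z (0, 2)) * Complex.normSq (z (1, 2)) := by
    exact_mod_cast h7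
  rw [h8]
  ring

lemma moment_line {X : Matrix J J ℂ} (hX : X ∈ lieAlg G0) (z v : J → ℂ) (t : ℝ) :
    moment X (z + t • v) = moment X z + t * (-(star v ⬝ᵥ (X *ᵥ z)).im) + t ^ 2 * moment X v := by
  have hs := lieAlg_skew G0 hX
  have h1 : star z ⬝ᵥ (X *ᵥ v) = -star (star v ⬝ᵥ (X *ᵥ z)) := by
    have h0 : star (star v ⬝ᵥ (X *ᵥ z)) = star (X *ᵥ z) ⬝ᵥ v := by
      rw [← Matrix.star_dotProduct]
    have hX' : Xᴴ = -X := by
      ext i j
      rw [Matrix.conjTranspose_apply, hs, Matrix.neg_apply]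
    rw [h0, Matrix.star_mulVec, ← Matrix.dotProduct_mulVec, hX', Matrix.neg_mulVec,
      dotProduct_neg, neg_neg]
  have h2 : (z + t • v : J → ℂ) = z + (t : ℂ) • v := by
    funext i
    simp
  have h3 : star (z + (t : ℂ) • v) = star z + (t : ℂ) • star v := by
    funext i
    simp
  rw [moment, moment, moment, h2, h3]
  simp only [Matrix.mulVec_add, Matrix.mulVec_smul, dotProduct_add, add_dotProduct,
    smul_dotProduct, dotProduct_smul, smul_eq_mul]
  rw [h1]
  generalize star v ⬝ᵥ (X *ᵥ z) = y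
  generalize star z ⬝ᵥ (X *ᵥ z) = a0
  generalize star v ⬝ᵥ (X *ᵥ v) = a1
  simp [Complex.mul_re, Complex.mul_im]
  ring

lemma moment_deriv {X : Matrix J J ℂ} (hX : X ∈ lieAlg G0) (z v : J → ℂ) :
    HasDerivAt (fun t : ℝ => moment X (z + t • v)) (-(star v ⬝ᵥ (X *ᵥ z)).im) 0 := by
  have h : (fun t : ℝ => moment X (z + t • v)) = fun t : ℝ => moment X z
      + t * (-(star v ⬝ᵥ (X *ᵥ z)).im) + t ^ 2 * moment X v := by
    funext t
    exact moment_line hX z v t
  rw [h]
  generalize -(star v ⬝ᵥ (X *ᵥ z)).im = c1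
  generalize moment X z = c0
  generalize moment X v = c2
  have h1 : HasDerivAt (fun t : ℝ => t * c1) c1 0 := by
    simpa using (hasDerivAt_id (0 : ℝ)).mul_const c1
  have h2 : HasDerivAt (fun t : ℝ => t ^ 2 * c2) 0 0 := by
    simpa using (hasDerivAt_pow 2 (0 : ℝ)).mul_const c2
  have h3 := ((hasDerivAt_const (0 : ℝ) c0).fun_add h1).fun_add h2
  simpa using h3

/-- On every level set of a central regular value the determinant `dA` does not vanish. -/
lemma level_dA {α : Matrix J J ℂ → ℝ} (hα : IsCentral G0 α) (hr : IsRegular G0 α) (z : J → ℂ)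
    (hz : z ∈ level G0 α) : dA z ≠ 0 := by
  intro h0
  obtain ⟨h1, h2⟩ := level_eqs hα hz
  have h3 := normSq_dA h1 h2
  rw [h0, map_zero] at h3
  set n : ℝ := Complex.normSq (z (0, 2)) + Complex.normSq (z (1, 2)) with hn
  have hn0 : 0 ≤ n := add_nonneg (Complex.normSq_nonneg _) (Complex.normSq_nonneg _)
  have h4 : 0 ≤ 2 * hh z 0 + n := by
    have : 2 * hh z 0 + n = hh z 0 + hh z 1 + n := by rw [← h1]; ring
    rw [this, hn]
    simp only [hh]
    have a1 := Complex.normSq_nonneg (z (0, 0))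
    have a2 := Complex.normSq_nonneg (z (0, 1))
    have a3 := Complex.normSq_nonneg (z (1, 0))
    have a4 := Complex.normSq_nonneg (z (1, 1))
    linarith
  have hs : hh z 0 = 0 := by
    have h5 : hh z 0 * (hh z 0 + n) = 0 := by linarith
    rcases mul_eq_zero.1 h5 with h | h
    · exact h
    · nlinarith
  have hmom : ∀ X ∈ lieAlg G0, α X = 0 := by
    intro X hX
    rw [← hz X hX]
    obtain ⟨y0, y1, β, hX', -, -⟩ := skew_form hX
    rw [hX', moment_formula, ← h1, hs, h2]
    simp
  have hzero : (0 : J → ℂ) ∈ level G0 α := by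
    intro X hX
    rw [hmom X hX, moment]
    simp
  have hcon := hr 0 hzero _ mem_I (fun v => by
    have := moment_deriv mem_I 0 v
    simpa using this)
  have h6 := congrFun (congrFun hcon (0, 0)) (0, 0)
  simp [lieM, Matrix.blockDiagonal_apply, blk] at h6

/-- The central value `- Im tr / 2`. -/
def al (X : Matrix J J ℂ) : ℝ := -((X (0, 0) (0, 0)).im + (X (1, 0) (1, 0)).im) / 2

lemma al_lieM (Y : Matrix (Fin 2) (Fin 2) ℂ) : al (lieM Y) = -(Y.trace).im / 2 := by
  simp [al, lieM, Matrix.blockDiagonal_apply, blk, Matrix.trace, Fin.sum_univ_two]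

lemma al_central : IsCentral G0 al := by
  constructor
  · intro X _ Y _ r s
    simp [al]
    ring
  · rintro u ⟨g, rfl⟩ X hX
    rw [lieAlg_eq hX, conj_lieM, al_lieM, al_lieM]
    have hg : (g.1)ᴴ * g.1 = 1 := Matrix.mem_unitaryGroup_iff'.1 g.2
    rw [Matrix.trace_mul_comm, ← Matrix.mul_assoc, hg, Matrix.one_mul]

lemma al_level {z : J → ℂ} (hz : z ∈ level G0 al) : hh z 0 = 1 ∧ hh z 1 = 1 ∧ ww z = 0 := by
  obtain ⟨h1, h2⟩ := level_eqs al_central hz
  have h3 := hz _ mem_I
  rw [mom_I, al_lieM] at h3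
  simp [Matrix.trace, Fin.sum_univ_two] at h3
  refine ⟨by linarith, by linarith, h2⟩

lemma al_regular : IsRegular G0 al := by
  intro z hz X hX hd
  obtain ⟨h1, h1', h2⟩ := al_level hz
  have h3 := normSq_dA (by rw [h1, h1']) h2
  have hdA : dA z ≠ 0 := by
    intro h0
    rw [h0, map_zero, h1] at h3
    have a1 := Complex.normSq_nonneg (z (0, 2))
    have a2 := Complex.normSq_nonneg (z (1, 2))
    nlinarith
  have hXz : X *ᵥ z = 0 := by
    have h4 := (moment_deriv hX z (fun a => Complex.I * (X *ᵥ z) a)).unique (hd _)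
    have h5 : star (fun a => Complex.I * (X *ᵥ z) a) ⬝ᵥ (X *ᵥ z)
        = -Complex.I * ((∑ a, Complex.normSq ((X *ᵥ z) a) : ℝ) : ℂ) := by
      rw [dotProduct, Complex.ofReal_sum, Finset.mul_sum]
      refine Finset.sum_congr rfl fun a _ => ?_
      show star (Complex.I * (X *ᵥ z) a) * (X *ᵥ z) a = _
      rw [star_mul', Complex.star_def, Complex.conj_I, ← Complex.mul_conj]
      ring
    rw [h5] at h4
    have h6 : ∑ a, Complex.normSq ((X *ᵥ z) a) = 0 := by
      have : (-Complex.I * ((∑ a, Complex.normSq ((X *ᵥ z) a) : ℝ) : ℂ)).im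
          = -∑ a, Complex.normSq ((X *ᵥ z) a) := by
        rw [Complex.mul_im, Complex.ofReal_re, Complex.ofReal_im]
        simp
      rw [this] at h4
      linarith
    funext a
    have h7 := (Finset.sum_eq_zero_iff_of_nonneg fun a _ => Complex.normSq_nonneg
      ((X *ᵥ z) a)).1 h6 a (Finset.mem_univ a)
    exact Complex.normSq_eq_zero.1 h7
  rw [lieAlg_eq hX]
  have hX' := lieAlg_eq hX
  set Y : Matrix (Fin 2) (Fin 2) ℂ := Matrix.of fun i j => X (i, 0) (j, 0) with hY
  have hYz : ∀ i, Y i 0 * z (0, 0) + Y i 1 * z (1, 0) = 0 ∧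
      Y i 0 * z (0, 1) + Y i 1 * z (1, 1) = 0 := by
    intro i
    constructor
    · have := congrFun hXz (i, 0)
      rw [hX', lieM, blk_mulVec] at this
      simpa [blk] using this
    · have := congrFun hXz (i, 1)
      rw [hX', lieM, blk_mulVec] at this
      simpa [blk] using this
  have hY0 : Y = 0 := by
    ext i j
    obtain ⟨a1, a2⟩ := hYz i
    fin_cases j
    · have : Y i 0 * dA z = 0 := by
        rw [dA]
        linear_combination z (1, 1) * a1 - z (1, 0) * a2
      exact (mul_eq_zero.1 this).resolve_right hdA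
    · have : Y i 1 * dA z = 0 := by
        rw [dA]
        linear_combination z (0, 0) * a2 - z (0, 1) * a1
      exact (mul_eq_zero.1 this).resolve_right hdA
  rw [hY0, lieM]
  ext ⟨i, k⟩ ⟨j, k'⟩
  rw [Matrix.blockDiagonal_apply]
  split_ifs
  · unfold blk
    split_ifs
    · simp
    · rfl
  · rfl

/-- A point of the level set. -/
def z1 (a : J) : ℂ := if a = (0, 0) ∨ a = (1, 1) then 1 else 0

lemma z1_mem : z1 ∈ level G0 al := by
  intro X hX
  obtain ⟨y0, y1, β, hX', h0, h1⟩ := skew_form hX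
  rw [al, ← h0, ← h1, hX', moment_formula]
  have e0 : hh z1 0 = 1 := by simp [hh, z1]
  have e1 : hh z1 1 = 1 := by simp [hh, z1]
  have e2 : ww z1 = 0 := by simp [ww, z1]
  rw [e0, e1, e2]
  simp

/-! Compactness and connectedness of `G0`. -/

lemma su_cond (v : Metric.sphere (0 : EuclideanSpace ℂ (Fin 2)) 1) :
    v.1 0 * star (v.1 0) + v.1 1 * star (v.1 1) = 1 := by
  have h : ‖v.1‖ = 1 := by simp
  have h2 := EuclideanSpace.norm_sq_eq v.1
  rw [h, Fin.sum_univ_two] at h2
  rw [Complex.star_def, Complex.mul_conj, Complex.mul_conj,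
    Complex.normSq_eq_norm_sq, Complex.normSq_eq_norm_sq]
  rw [← Complex.ofReal_add, ← h2]
  norm_num

lemma circle_cond (t : Circle) : (t : ℂ) * star (t : ℂ) = 1 := by
  have := Circle.normSq_coe t
  rw [Complex.star_def, Complex.mul_conj, this]
  simp

/-- A continuous surjection from `S³ × S¹` onto `G0`. -/
def psi (q : Metric.sphere (0 : EuclideanSpace ℂ (Fin 2)) 1 × Circle) :
    Matrix.unitaryGroup J ℂ :=
  emb (su q.2 (q.1.1 0) (q.1.1 1) (su_cond q.1) (circle_cond q.2))

lemma psi_continuous : Continuous psi := by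
  apply Continuous.subtype_mk
  have hC : Continuous fun q : Metric.sphere (0 : EuclideanSpace ℂ (Fin 2)) 1 × Circle =>
      (q.2 : ℂ) := continuous_induced_dom.comp continuous_snd
  have hM : Continuous fun q : Metric.sphere (0 : EuclideanSpace ℂ (Fin 2)) 1 × Circle =>
      !![(q.2 : ℂ) * q.1.1 0, (q.2 : ℂ) * q.1.1 1; -((q.2 : ℂ) * star (q.1.1 1)),
        (q.2 : ℂ) * star (q.1.1 0)] := by
    apply continuous_matrix
    intro i j
    fin_cases i <;> fin_cases j <;> simp <;> fun_prop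
  show Continuous fun q : Metric.sphere (0 : EuclideanSpace ℂ (Fin 2)) 1 × Circle =>
    Matrix.blockDiagonal (blk !![(q.2 : ℂ) * q.1.1 0, (q.2 : ℂ) * q.1.1 1;
      -((q.2 : ℂ) * star (q.1.1 1)), (q.2 : ℂ) * star (q.1.1 0)])
  apply continuous_matrix
  rintro ⟨i, k⟩ ⟨j, k'⟩
  simp only [Matrix.blockDiagonal_apply]
  have hij := hM.matrix_elem i j
  split_ifs
  · unfold blk
    split_ifs
    · exact Complex.continuous_conj.comp hij
    · exact hij
  · exact continuous_const

lemma psi_range : Set.range psi = (G0 : Set (Matrix.unitaryGroup J ℂ)) := by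
  apply Set.Subset.antisymm
  · rintro _ ⟨q, rfl⟩
    exact ⟨_, rfl⟩
  · rintro _ ⟨⟨g, hg⟩, rfl⟩
    have h1 : g * gᴴ = 1 := Matrix.mem_unitaryGroup_iff.1 hg
    have hd : g.det * star g.det = 1 := det_unit h1
    have hdn : ‖g.det‖ = 1 := by
      rw [Complex.star_def, Complex.mul_conj, Complex.normSq_eq_norm_sq] at hd
      norm_cast at hd
      have := norm_nonneg g.det
      nlinarith
    -- a square root of the determinant
    let t : Circle := Circle.exp (Complex.arg g.det / 2)
    have ht : (t : ℂ) * t = g.det := by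
      have h2 : ((t * t : Circle) : ℂ) = g.det := by
        show ((Circle.exp (Complex.arg g.det / 2) * Circle.exp (Complex.arg g.det / 2) : Circle) : ℂ)
          = g.det
        rw [← Circle.exp_add, add_halves, Circle.coe_exp]
        have := Complex.norm_mul_exp_arg_mul_I g.det
        rw [hdn] at this
        simpa using this
      exact h2
    have htt : (t : ℂ) * star (t : ℂ) = 1 := circle_cond t
    have ht0 : (t : ℂ) ≠ 0 := by
      intro h
      rw [h, zero_mul] at htt
      exact zero_ne_one htt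
    have h3 : g.det • gᴴ = g.adjugate := by
      have h4 : g * g.adjugate = g.det • (1 : Matrix (Fin 2) (Fin 2) ℂ) := Matrix.mul_adjugate g
      have h5 : gᴴ * g = 1 := _root_.mul_eq_one_comm.1 h1
      calc g.det • gᴴ = gᴴ * (g.det • (1 : Matrix (Fin 2) (Fin 2) ℂ)) := by
            rw [Matrix.mul_smul, Matrix.mul_one]
        _ = gᴴ * (g * g.adjugate) := by rw [h4]
        _ = g.adjugate := by rw [← Matrix.mul_assoc, h5, Matrix.one_mul]
    have a1 : g 1 0 = -(g.det * star (g 0 1)) := by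
      have := congrFun (congrFun h3 1) 0
      rw [Matrix.adjugate_fin_two, Matrix.smul_apply, Matrix.conjTranspose_apply] at this
      simp at this
      rw [Complex.star_def, this]
      ring
    have a2 : g 1 1 = g.det * star (g 0 0) := by
      have := congrFun (congrFun h3 0) 0
      rw [Matrix.adjugate_fin_two, Matrix.smul_apply, Matrix.conjTranspose_apply] at this
      simp at this
      rw [Complex.star_def, this]
    have e00 : g 0 0 * star (g 0 0) + g 0 1 * star (g 0 1) = 1 := by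
      have := congrFun (congrFun h1 0) 0
      simpa only [Matrix.mul_apply, Fin.sum_univ_two, Matrix.conjTranspose_apply,
        Matrix.one_apply_eq] using this
    let α : ℂ := star (t : ℂ) * g 0 0
    let β : ℂ := star (t : ℂ) * g 0 1
    have hαβ : α * star α + β * star β = 1 := by
      simp only [α, β, star_mul', star_star]
      linear_combination (star (t : ℂ) * t) * e00 + htt
    have hn : ‖(WithLp.toLp 2 ![α, β] : EuclideanSpace ℂ (Fin 2))‖ = 1 := by
      have e0 := hαβ
      simp only [Complex.star_def, Complex.mul_conj, Complex.normSq_eq_norm_sq] at e0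
      norm_cast at e0
      rw [EuclideanSpace.norm_eq, Fin.sum_univ_two]
      simp [e0]
    refine ⟨(⟨WithLp.toLp 2 ![α, β], by simpa using hn⟩, t), ?_⟩
    show emb (su (t : ℂ) α β _ _) = emb ⟨g, hg⟩
    congr 1
    apply Subtype.ext
    show !![(t : ℂ) * α, (t : ℂ) * β; -((t : ℂ) * star β), (t : ℂ) * star α] = g
    ext i j
    fin_cases i <;> fin_cases j
    · show (t : ℂ) * (star (t : ℂ) * g 0 0) = g 0 0
      linear_combination g 0 0 * htt
    · show (t : ℂ) * (star (t : ℂ) * g 0 1) = g 0 1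
      linear_combination g 0 1 * htt
    · show -((t : ℂ) * star (star (t : ℂ) * g 0 1)) = g 1 0
      rw [star_mul', star_star, a1, ← ht]
      ring
    · show (t : ℂ) * star (star (t : ℂ) * g 0 0) = g 1 1
      rw [star_mul', star_star, a2, ← ht]
      ring

lemma G0_compact : IsCompact (G0 : Set (Matrix.unitaryGroup J ℂ)) := by
  rw [← psi_range]
  exact isCompact_range psi_continuous

lemma G0_connected : IsConnected (G0 : Set (Matrix.unitaryGroup J ℂ)) := by
  rw [← psi_range]
  have h1 : ConnectedSpace (Metric.sphere (0 : EuclideanSpace ℂ (Fin 2)) 1) := by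
    rw [← isConnected_iff_connectedSpace]
    apply isConnected_sphere
    · rw [← Module.finrank_eq_rank, finrank_real_of_complex]
      simp
    · norm_num
  exact isConnected_range psi_continuous


theorem result : ∃ (ι : Type) (_ : Fintype ι) (_ : DecidableEq ι)
    (G : Subgroup (Matrix.unitaryGroup ι ℂ)),
    IsCompact (G : Set (Matrix.unitaryGroup ι ℂ)) ∧
    IsConnected (G : Set (Matrix.unitaryGroup ι ℂ)) ∧
    (∃ α, IsCentral G α ∧ IsRegular G α ∧ (level G α).Nonempty) ∧
    ∃ (k : ℕ) (c : Coh (Borel G (Set.univ : Set (ι → ℂ))) k),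
      (∀ α, IsCentral G α → IsRegular G α → restr G (level G α) k c = zeroCls _ k) ∧
      restr G (locFree G) k c ≠ zeroCls _ k :=
  ⟨J, _, _, G0, G0_compact, G0_connected, ⟨al, al_central, al_regular, z1, z1_mem⟩, 2, c1,
    fun _ hα hr => restr_c1_zero _ fun z hz => level_dA hα hr z hz, c1_ne⟩

end

end Pool.Agent.Results.MP_c41d74_gt.UnitaryTwo
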